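import Pool.Agent.Lib.HypF.Gap

/-!
# H2 / HypF: corollaries of the first moment transfer (purely finite part)

`EdgeLaw H q`: `q` is a symmetric probability on the ordered edges of the graph `H`.
`fm q φ = 4 Ent (φ q₁) - 3 Ent ((φ × φ) q)` for a map `φ : V → C`, `q₁` = marginal of `q`.
-/

namespace HypF

open Real Finset

/-- a symmetric probability on the ordered edges of `H` -/
structure EdgeLaw {V : Type*} [Fintype V] (H : SimpleGraph V) (q : V → V → ℝ) : Prop where
  nonneg : ∀ a b, 0 ≤ q a b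
  symm : ∀ a b, q a b = q b a
  sum_one : ∑ a, ∑ b, q a b = 1
  supp : ∀ a b, ¬ H.Adj a b → q a b = 0

section

variable {V : Type*} [Fintype V] {C : Type*} [Fintype C] [DecidableEq C]

/-- entropy of the image of the marginal -/
noncomputable def ent1 (q : V → V → ℝ) (φ : V → C) : ℝ :=
  ∑ c, negMulLog (∑ a with φ a = c, ∑ b, q a b)

/-- entropy of the image of the pair -/
noncomputable def ent2 (q : V → V → ℝ) (φ : V → C) : ℝ :=
  ∑ c, ∑ c', negMulLog (∑ a with φ a = c, ∑ b with φ b = c', q a b)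

/-- the first moment functional -/
noncomputable def fm (q : V → V → ℝ) (φ : V → C) : ℝ := 4 * ent1 q φ - 3 * ent2 q φ

end

/-! ## the function `e` -/

/-- `e(p) = -p log p + 2 (1-p) log (1-p) - (3/2) (1-2p) log (1-2p)` -/
noncomputable def ef (p : ℝ) : ℝ :=
  negMulLog p - 2 * negMulLog (1 - p) + (3 / 2) * negMulLog (1 - 2 * p)

theorem continuous_ef : Continuous ef := by
  unfold ef
  fun_prop

@[simp] theorem ef_zero : ef 0 = 0 := by simp [ef]

theorem hasDerivAt_ef {p : ℝ} (h0 : 0 < p) (h1 : p < 1 / 2) :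
    HasDerivAt ef (3 * log (1 - 2 * p) - 2 * log (1 - p) - log p) p := by
  have e1 := hasDerivAt_negMulLog (x := p) h0.ne'
  have i2 : HasDerivAt (fun x : ℝ => 1 - x) (-1) p := by
    simpa using (hasDerivAt_id p).const_sub 1
  have i3 : HasDerivAt (fun x : ℝ => 1 - 2 * x) (-2) p := by
    simpa using ((hasDerivAt_id p).const_mul 2).const_sub 1
  have e2 := (hasDerivAt_negMulLog (x := 1 - p) (by linarith)).comp p i2
  have e3 := (hasDerivAt_negMulLog (x := 1 - 2 * p) (by linarith)).comp p i3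
  have h := (e1.sub (e2.const_mul 2)).add (e3.const_mul (3 / 2))
  refine h.congr_deriv ?_
  ring

theorem concaveOn_ef : ConcaveOn ℝ (Set.Icc 0 (1 / 2)) ef := by
  apply AntitoneOn.concaveOn_of_deriv (convex_Icc _ _) continuous_ef.continuousOn
  · intro p hp
    rw [interior_Icc] at hp
    exact (hasDerivAt_ef hp.1 hp.2).differentiableAt.differentiableWithinAt
  · intro p hp r hr hpr
    rw [interior_Icc] at hp hr
    rw [(hasDerivAt_ef hp.1 hp.2).deriv, (hasDerivAt_ef hr.1 hr.2).deriv]
    have a1 : 0 < 1 - 2 * r := by linarith [hr.2]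
    have a2 : 0 < 1 - 2 * p := by linarith [hp.2]
    have b1 : 0 < 1 - r := by linarith [hr.2]
    have b2 : 0 < 1 - p := by linarith [hp.2]
    have l1 : log (1 - 2 * r) ≤ log (1 - 2 * p) := log_le_log a1 (by linarith)
    have l2 : log p ≤ log r := log_le_log hp.1 hpr
    have l3 : log ((1 - 2 * r) / (1 - r)) ≤ log ((1 - 2 * p) / (1 - p)) := by
      apply log_le_log (by positivity)
      rw [div_le_div_iff₀ b1 b2]
      nlinarith
    rw [log_div a1.ne' b1.ne', log_div a2.ne' b2.ne'] at l3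
    linarith

/-- `e` is negative beyond a point where it is negative -/
theorem ef_neg_of_le {s r : ℝ} (hs : 0 < s) (hsr : s ≤ r) (hr : r ≤ 1 / 2) (h : ef s < 0) :
    ef r < 0 := by
  have hr0 : 0 < r := by linarith
  have h01 : (0 : ℝ) ∈ Set.Icc (0 : ℝ) (1 / 2) := ⟨le_rfl, by norm_num⟩
  have hr1 : r ∈ Set.Icc (0 : ℝ) (1 / 2) := ⟨hr0.le, hr⟩
  have hc1 : 0 ≤ 1 - s / r := by
    rw [sub_nonneg, div_le_one hr0]
    exact hsr
  have this := concaveOn_ef.2 h01 hr1 hc1 (by positivity : 0 ≤ s / r) (by ring)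
  simp only [smul_eq_mul, mul_zero, zero_add, ef_zero] at this
  rw [div_mul_cancel₀ _ hr0.ne'] at this
  by_contra hc
  push Not at hc
  have : 0 ≤ s / r * ef r := by positivity
  linarith

/-- the integer form of `e(k/n) < 0` -/
theorem ef_neg_of_pow {k n : ℕ} (hk : 0 < k) (hkn : 2 * k ≤ n)
    (h : (n - k) ^ (4 * (n - k)) < k ^ (2 * k) * (n - 2 * k) ^ (3 * (n - 2 * k)) * n ^ n) :
    ef (k / n) < 0 := by
  have hn : 0 < n := by omega
  have hnR : (0 : ℝ) < n := by exact_mod_cast hn
  have hkR : (0 : ℝ) < k := by exact_mod_cast hk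
  have hnk : 0 < n - k := by omega
  have c1 : ((n - k : ℕ) : ℝ) = n - k := by
    rw [Nat.cast_sub (by omega)]
  have c2 : ((n - 2 * k : ℕ) : ℝ) = n - 2 * k := by
    rw [Nat.cast_sub (by omega)]; push_cast; ring
  have hnkR : (0 : ℝ) < n - k := by rw [← c1]; exact_mod_cast hnk
  have h1 : (((n - k : ℕ) : ℝ) ^ (4 * (n - k))) <
      (k : ℝ) ^ (2 * k) * ((n - 2 * k : ℕ) : ℝ) ^ (3 * (n - 2 * k)) * (n : ℝ) ^ n := by
    exact_mod_cast h
  have hz : ((n - 2 * k : ℕ) : ℝ) ^ (3 * (n - 2 * k)) ≠ 0 := by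
    rcases Nat.eq_zero_or_pos (n - 2 * k) with h0 | h0
    · rw [h0]; norm_num
    · have : ((n - 2 * k : ℕ) : ℝ) ≠ 0 := by exact_mod_cast h0.ne'
      exact pow_ne_zero _ this
  have h2 := log_lt_log (by rw [c1]; positivity) h1
  rw [log_mul (mul_ne_zero (pow_ne_zero _ hkR.ne') hz) (pow_ne_zero _ hnR.ne'),
    log_mul (pow_ne_zero _ hkR.ne') hz, log_pow, log_pow, log_pow, log_pow] at h2
  push_cast [c1, c2] at h2
  have e1 : negMulLog ((k : ℝ) / n) = -(k / n) * (log k - log n) := by
    rw [negMulLog, log_div hkR.ne' hnR.ne']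
  have e2 : negMulLog (1 - (k : ℝ) / n) = -((n - k) / n) * (log (n - k) - log n) := by
    have : 1 - (k : ℝ) / n = (n - k) / n := by field_simp
    rw [this, negMulLog, log_div hnkR.ne' hnR.ne']
  have e3 : negMulLog (1 - 2 * ((k : ℝ) / n)) = -((n - 2 * k) / n) * (log (n - 2 * k) - log n) := by
    have h3 : 1 - 2 * ((k : ℝ) / n) = (n - 2 * k) / n := by field_simp
    rw [h3, negMulLog]
    rcases Nat.eq_zero_or_pos (n - 2 * k) with h0 | h0
    · have : (n : ℝ) - 2 * k = 0 := by rw [← c2, h0]; norm_num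
      rw [this]; simp
    · have : (n : ℝ) - 2 * k ≠ 0 := by rw [← c2]; exact_mod_cast h0.ne'
      rw [log_div this hnR.ne']
  have e4 : 2 * (n : ℝ) * ef (k / n) = 4 * (n - k) * log (n - k) -
      (2 * k * log k + 3 * (n - 2 * k) * log (n - 2 * k) + n * log n) := by
    rw [ef, e1, e2, e3]
    field_simp
    ring
  have h3 : 2 * (n : ℝ) * ef (k / n) < 0 := by
    rw [e4]
    linarith
  by_contra hc
  push Not at hc
  have : 0 ≤ 2 * (n : ℝ) * ef (k / n) := by positivity
  linarith

set_option exponentiation.threshold 400 in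
/-- `e(157/342) < 0` (the root of `e` is `0.459062..`, `342/157 = 2.17834..`) -/
theorem ef_num : ef (157 / 342) < 0 := by
  have h : (342 - 157) ^ (4 * (342 - 157)) <
      157 ^ (2 * 157) * (342 - 2 * 157) ^ (3 * (342 - 2 * 157)) * 342 ^ 342 := by
    have h1 : 185 ^ 370 < 157 ^ 157 * 28 ^ 42 * 342 ^ 171 := by norm_num
    have h2 := Nat.pow_lt_pow_left h1 (n := 2) (by norm_num)
    calc (342 - 157) ^ (4 * (342 - 157)) = (185 ^ 370) ^ 2 := by rw [← pow_mul]
      _ < (157 ^ 157 * 28 ^ 42 * 342 ^ 171) ^ 2 := h2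
      _ = _ := by rw [mul_pow, mul_pow, ← pow_mul, ← pow_mul, ← pow_mul]
  have := ef_neg_of_pow (k := 157) (n := 342) (by norm_num) (by norm_num) h
  exact_mod_cast this

/-! ## two-valued maps -/

section two

variable {V : Type*} [Fintype V] {H : SimpleGraph V} {q : V → V → ℝ}

/-- the four cells of a two-valued map -/
noncomputable def cell (q : V → V → ℝ) (φ : V → Bool) (c c' : Bool) : ℝ :=
  ∑ a with φ a = c, ∑ b with φ b = c', q a b

theorem cell_nonneg (hq : EdgeLaw H q) (φ : V → Bool) (c c' : Bool) : 0 ≤ cell q φ c c' :=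
  Finset.sum_nonneg fun _ _ => Finset.sum_nonneg fun _ _ => hq.nonneg _ _

theorem cell_symm (hq : EdgeLaw H q) (φ : V → Bool) (c c' : Bool) :
    cell q φ c c' = cell q φ c' c := by
  unfold cell
  rw [Finset.sum_comm]
  exact Finset.sum_congr rfl fun _ _ => Finset.sum_congr rfl fun _ _ => hq.symm _ _

theorem sum_bool_split (φ : V → Bool) (f : V → ℝ) :
    ∑ b, f b = ∑ b with φ b = true, f b + ∑ b with φ b = false, f b := by
  rw [← Finset.sum_filter_add_sum_filter_not Finset.univ (fun b => φ b = true)]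
  simp

theorem row (q : V → V → ℝ) (φ : V → Bool) (c : Bool) :
    ∑ a with φ a = c, ∑ b, q a b = cell q φ c true + cell q φ c false := by
  unfold cell
  rw [← Finset.sum_add_distrib]
  exact Finset.sum_congr rfl fun a _ => sum_bool_split φ _

theorem cell_total (hq : EdgeLaw H q) (φ : V → Bool) :
    cell q φ true true + 2 * cell q φ true false + cell q φ false false = 1 := by
  have h := hq.sum_one
  rw [sum_bool_split φ, row, row, cell_symm hq φ false true] at h
  linarith

theorem fm_eq (hq : EdgeLaw H q) (φ : V → Bool) :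
    fm q φ = 4 * (negMulLog (cell q φ true true + cell q φ true false) +
        negMulLog (cell q φ false false + cell q φ true false)) -
      3 * (negMulLog (cell q φ true true) + 2 * negMulLog (cell q φ true false) +
        negMulLog (cell q φ false false)) := by
  have h1 : ent1 q φ = negMulLog (cell q φ true true + cell q φ true false) +
      negMulLog (cell q φ false false + cell q φ true false) := by
    unfold ent1
    rw [Fintype.sum_bool, row, row, cell_symm hq φ false true, add_comm (cell q φ true false)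
      (cell q φ false false)]
  have h2 : ent2 q φ = negMulLog (cell q φ true true) + 2 * negMulLog (cell q φ true false) +
      negMulLog (cell q φ false false) := by
    show ∑ c, ∑ c', negMulLog (cell q φ c c') = _
    rw [Fintype.sum_bool, Fintype.sum_bool, Fintype.sum_bool, cell_symm hq φ false true]
    ring
  rw [fm, h1, h2]

/-! ### independent sets -/

/-- `φ` is the indicator of an independent set -/
def IsIndep (H : SimpleGraph V) (φ : V → Bool) : Prop :=
  ∀ a b, φ a = true → φ b = true → ¬ H.Adj a b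

theorem cell_indep (hq : EdgeLaw H q) {φ : V → Bool} (hφ : IsIndep H φ) :
    cell q φ true true = 0 := by
  unfold cell
  refine Finset.sum_eq_zero fun a ha => Finset.sum_eq_zero fun b hb => ?_
  simp only [Finset.mem_filter, Finset.mem_univ, true_and] at ha hb
  exact hq.supp _ _ (hφ a b ha hb)

/-- the mass of an independent set -/
noncomputable def mass (q : V → V → ℝ) (φ : V → Bool) : ℝ := ∑ a with φ a = true, ∑ b, q a b

theorem mass_eq (hq : EdgeLaw H q) {φ : V → Bool} (hφ : IsIndep H φ) :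
    mass q φ = cell q φ true false := by
  rw [mass, row, cell_indep hq hφ, zero_add]

theorem mass_mem (hq : EdgeLaw H q) {φ : V → Bool} (hφ : IsIndep H φ) :
    mass q φ ∈ Set.Icc (0 : ℝ) (1 / 2) := by
  have h1 := cell_total hq φ
  have h2 := cell_nonneg hq φ false false
  have h3 := cell_nonneg hq φ true false
  rw [mass_eq hq hφ]
  rw [cell_indep hq hφ] at h1
  exact ⟨h3, by linarith⟩

/-- (C1) -/
theorem fm_indep (hq : EdgeLaw H q) {φ : V → Bool} (hφ : IsIndep H φ) :
    fm q φ = -2 * ef (mass q φ) := by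
  have h1 := cell_total hq φ
  rw [fm_eq hq, mass_eq hq hφ]
  rw [cell_indep hq hφ] at h1 ⊢
  have h2 : cell q φ false false = 1 - 2 * cell q φ true false := by linarith
  rw [h2, ef]
  simp only [negMulLog_zero, zero_add]
  rw [show 1 - 2 * cell q φ true false + cell q φ true false = 1 - cell q φ true false by ring]
  ring

theorem sum_mass {T : Type*} [Fintype T] (q : V → V → ℝ) (φ : T → V → Bool) (m : T → ℝ) :
    ∑ t, m t * mass q (φ t) = ∑ a, (∑ t, m t * (if φ t a = true then 1 else 0)) * ∑ b, q a b := by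
  have h1 : ∀ t, m t * mass q (φ t) = ∑ a, m t * (if φ t a = true then ∑ b, q a b else 0) := by
    intro t
    rw [mass, Finset.sum_filter, Finset.mul_sum]
  rw [Finset.sum_congr rfl fun t _ => h1 t, Finset.sum_comm]
  refine Finset.sum_congr rfl fun a _ => ?_
  rw [Finset.sum_mul]
  refine Finset.sum_congr rfl fun t _ => ?_
  split_ifs <;> simp

/-- (C3), weighted form: independent sets `φ t` with weights `m t` of total `1` such that every
vertex is covered with weight at least `s`, and `e(s) < 0`. -/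
theorem fm_pos_of_indep {T : Type*} [Fintype T] (φ : T → V → Bool) (m : T → ℝ)
    (hφ : ∀ t, IsIndep H (φ t)) (hm : ∀ t, 0 ≤ m t) (hm1 : ∑ t, m t = 1) {s : ℝ} (hs : 0 < s)
    (hes : ef s < 0) (hcov : ∀ a, s ≤ ∑ t, m t * (if φ t a = true then 1 else 0))
    (hq : EdgeLaw H q) : 0 < ∑ t, m t * fm q (φ t) := by
  have h1 : ∑ t, m t * fm q (φ t) = -2 * ∑ t, m t * ef (mass q (φ t)) := by
    rw [Finset.mul_sum]
    exact Finset.sum_congr rfl fun t _ => by rw [fm_indep hq (hφ t)]; ring
  have h2 : ∑ t, m t • ef (mass q (φ t)) ≤ ef (∑ t, m t • mass q (φ t)) :=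
    concaveOn_ef.le_map_sum (fun t _ => hm t) hm1 fun t _ => mass_mem hq (hφ t)
  simp only [smul_eq_mul] at h2
  have h3 : ∑ t, m t * mass q (φ t) ∈ Set.Icc (0 : ℝ) (1 / 2) := by
    have := (convex_Icc (0 : ℝ) (1 / 2)).sum_mem (t := Finset.univ) (fun t _ => hm t) hm1
      (fun t _ => mass_mem hq (hφ t))
    simpa using this
  have h4 : s ≤ ∑ t, m t * mass q (φ t) := by
    rw [sum_mass]
    calc s = ∑ a, s * ∑ b, q a b := by rw [← Finset.mul_sum, hq.sum_one, mul_one]
      _ ≤ _ := Finset.sum_le_sum fun a _ =>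
        mul_le_mul_of_nonneg_right (hcov a) (Finset.sum_nonneg fun b _ => hq.nonneg a b)
  have h5 := ef_neg_of_le hs h4 h3.2 hes
  rw [h1]
  linarith

/-! ### cuts -/

/-- the function of section 7 for cuts, as a function of the first diagonal cell -/
theorem convexOn_cut {d : ℝ} (hd0 : 0 < d) (hd : d ≤ 3 / 4) :
    ConvexOn ℝ (Set.Icc 0 d) fun x => 4 * (negMulLog (x + (1 - d) / 2) +
      negMulLog (d - x + (1 - d) / 2)) - 3 * (negMulLog x + negMulLog (d - x)) := by
  apply convexOn_of_hasDerivWithinAt2_nonneg (convex_Icc _ _)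
    (f' := fun x => 4 * ((-log (x + (1 - d) / 2) - 1) - (-log (d - x + (1 - d) / 2) - 1)) -
      3 * ((-log x - 1) - (-log (d - x) - 1)))
    (f'' := fun x => 4 * (-(x + (1 - d) / 2)⁻¹ - (d - x + (1 - d) / 2)⁻¹) -
      3 * (-x⁻¹ - (d - x)⁻¹))
  · fun_prop
  · intro x hx
    rw [interior_Icc] at hx
    refine HasDerivAt.hasDerivWithinAt ?_
    have i1 : HasDerivAt (fun x : ℝ => x + (1 - d) / 2) 1 x := (hasDerivAt_id x).add_const _
    have i2 : HasDerivAt (fun x : ℝ => d - x) (-1) x := by
      simpa using (hasDerivAt_id x).const_sub d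
    have i3 : HasDerivAt (fun x : ℝ => d - x + (1 - d) / 2) (-1) x := i2.add_const _
    have n1 : x + (1 - d) / 2 ≠ 0 := by
      have : 0 < x + (1 - d) / 2 := by linarith [hx.1, hd]
      exact this.ne'
    have n3 : d - x + (1 - d) / 2 ≠ 0 := by
      have : 0 < d - x + (1 - d) / 2 := by linarith [hx.2, hd]
      exact this.ne'
    have n2 : d - x ≠ 0 := by
      have : 0 < d - x := by linarith [hx.2]
      exact this.ne'
    have e1 := (hasDerivAt_negMulLog n1).comp x i1
    have e2 := (hasDerivAt_negMulLog n3).comp x i3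
    have e3 := hasDerivAt_negMulLog hx.1.ne'
    have e4 := (hasDerivAt_negMulLog n2).comp x i2
    refine (((e1.add e2).const_mul 4).sub ((e3.add e4).const_mul 3)).congr_deriv ?_
    ring
  · intro x hx
    rw [interior_Icc] at hx
    refine HasDerivAt.hasDerivWithinAt ?_
    have i1 : HasDerivAt (fun x : ℝ => x + (1 - d) / 2) 1 x := (hasDerivAt_id x).add_const _
    have i2 : HasDerivAt (fun x : ℝ => d - x) (-1) x := by
      simpa using (hasDerivAt_id x).const_sub d
    have i3 : HasDerivAt (fun x : ℝ => d - x + (1 - d) / 2) (-1) x := i2.add_const _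
    have n1 : x + (1 - d) / 2 ≠ 0 := by
      have : 0 < x + (1 - d) / 2 := by linarith [hx.1, hd]
      exact this.ne'
    have n3 : d - x + (1 - d) / 2 ≠ 0 := by
      have : 0 < d - x + (1 - d) / 2 := by linarith [hx.2, hd]
      exact this.ne'
    have n2 : d - x ≠ 0 := by
      have : 0 < d - x := by linarith [hx.2]
      exact this.ne'
    have e1 := i1.log n1
    have e2 := i3.log n3
    have e3 := (hasDerivAt_id x).log hx.1.ne'
    have e4 := i2.log n2
    refine ((((e1.neg.sub_const 1).sub (e2.neg.sub_const 1)).const_mul 4).sub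
      (((e3.neg.sub_const 1).sub (e4.neg.sub_const 1)).const_mul 3)).congr_deriv ?_
    simp only [id]
    field_simp
  · intro x hx
    rw [interior_Icc] at hx
    have p1 : 0 < x + (1 - d) / 2 := by linarith [hx.1, hd]
    have p3 : 0 < d - x + (1 - d) / 2 := by linarith [hx.2, hd]
    have p2 : 0 < d - x := by linarith [hx.2]
    have p0 := hx.1
    have a1 : (x + (1 - d) / 2)⁻¹ + (d - x + (1 - d) / 2)⁻¹ =
        1 / ((x + (1 - d) / 2) * (d - x + (1 - d) / 2)) := by
      have gen : ∀ P Q : ℝ, 0 < P → 0 < Q → P + Q = 1 → P⁻¹ + Q⁻¹ = 1 / (P * Q) := by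
        intro P Q hP hQ h
        rw [eq_div_iff (by positivity)]
        field_simp
        linarith
      exact gen _ _ p1 p3 (by ring)
    have a2 : x⁻¹ + (d - x)⁻¹ = d / (x * (d - x)) := by
      field_simp
      ring
    have h1 : 4 * (-(x + (1 - d) / 2)⁻¹ - (d - x + (1 - d) / 2)⁻¹) - 3 * (-x⁻¹ - (d - x)⁻¹) =
        3 * (x⁻¹ + (d - x)⁻¹) - 4 * ((x + (1 - d) / 2)⁻¹ + (d - x + (1 - d) / 2)⁻¹) := by ring
    rw [h1, a1, a2, sub_nonneg, mul_one_div, mul_div_assoc', div_le_div_iff₀ (by positivity)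
      (by positivity)]
    nlinarith [sq_nonneg (d - 2 * x), mul_pos p0 p2, mul_nonneg hd0.le (sub_nonneg.2 hd),
      mul_nonneg (sub_nonneg.2 hd) (sq_nonneg (d - 2 * x))]

theorem negMulLog_half (x : ℝ) : negMulLog (x / 2) = negMulLog x / 2 + x / 2 * log 2 := by
  rcases eq_or_ne x 0 with h | h
  · simp [h]
  · rw [negMulLog, negMulLog, log_div h (by norm_num)]
    ring

/-- symmetric cuts are the worst ones -/
theorem cut_lower {α β γ : ℝ} (hα : 0 ≤ α) (hβ : 0 ≤ β) (hγ : 1 / 8 ≤ γ)
    (h : α + 2 * γ + β = 1) :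
    log 2 - 3 * binEntropy (2 * γ) ≤ 4 * (negMulLog (α + γ) + negMulLog (β + γ)) -
      3 * (negMulLog α + 2 * negMulLog γ + negMulLog β) := by
  have hg : negMulLog γ = negMulLog (2 * γ) / 2 + γ * log 2 := by
    have := negMulLog_half (2 * γ)
    rw [show 2 * γ / 2 = γ by ring] at this
    exact this
  have hb : binEntropy (2 * γ) = negMulLog (2 * γ) + negMulLog (α + β) := by
    rw [binEntropy_eq_negMulLog_add_negMulLog_one_sub, show 1 - 2 * γ = α + β by linarith]
  have h12 : negMulLog (1 / 2 : ℝ) = log 2 / 2 := by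
    rw [negMulLog_half]
    simp
    ring
  rcases (add_nonneg hα hβ).eq_or_lt with h0 | h0
  · have ha : α = 0 := by linarith
    have hb' : β = 0 := by linarith
    have hg' : γ = 1 / 2 := by linarith
    subst ha hb' hg'
    simp only [zero_add, negMulLog_zero, h12]
    rw [show (2 : ℝ) * (1 / 2) = 1 by norm_num, binEntropy_one]
    linarith
  · have hd : α + β ≤ 3 / 4 := by linarith
    have mα : α ∈ Set.Icc 0 (α + β) := ⟨hα, by linarith⟩
    have mβ : β ∈ Set.Icc 0 (α + β) := ⟨hβ, by linarith⟩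
    have hc := (convexOn_cut h0 hd).2 mα mβ (by norm_num : (0 : ℝ) ≤ 1 / 2)
      (by norm_num : (0 : ℝ) ≤ 1 / 2) (by norm_num)
    simp only [smul_eq_mul] at hc
    have e1 : (1 : ℝ) / 2 * α + 1 / 2 * β + (1 - (α + β)) / 2 = 1 / 2 := by ring
    have e2 : α + β - ((1 : ℝ) / 2 * α + 1 / 2 * β) + (1 - (α + β)) / 2 = 1 / 2 := by ring
    have e3 : (1 : ℝ) / 2 * α + 1 / 2 * β = (α + β) / 2 := by ring
    have e4 : α + β - (α + β) / 2 = (α + β) / 2 := by ring
    have e5 : (1 - (α + β)) / 2 = γ := by linarith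
    rw [e1, e2, e3, e4, e5, show α + β - α = β by ring, show α + β - β = α by ring, h12,
      negMulLog_half (α + β)] at hc
    rw [hg, hb]
    have e6 : 2 * γ = 1 - (α + β) := by linarith
    have e7 : 3 * (2 * (γ * log 2)) + 3 * ((α + β) * log 2) = 3 * log 2 := by
      rw [show 3 * (2 * (γ * log 2)) = 3 * ((2 * γ) * log 2) by ring, e6]
      ring
    linarith

theorem gibbs1 {c c0 : ℝ} (hc : 0 ≤ c) (h0 : 0 < c0) :
    negMulLog c ≤ -c * log c0 + (c0 - c) := by
  rcases hc.eq_or_lt with h | h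
  · subst h
    simp
    exact h0.le
  · have h1 := log_le_sub_one_of_pos (div_pos h0 h)
    rw [log_div h0.ne' h.ne'] at h1
    have h2 := mul_le_mul_of_nonneg_left h1 hc
    rw [mul_sub, mul_sub, mul_div_cancel₀ _ h.ne'] at h2
    rw [negMulLog]
    linarith

theorem binEntropy_tangent {c c0 : ℝ} (hc : 0 ≤ c) (hc1 : c ≤ 1) (h0 : 0 < c0) (h1 : c0 < 1) :
    binEntropy c ≤ binEntropy c0 + (c - c0) * (log (1 - c0) - log c0) := by
  rw [binEntropy_eq_negMulLog_add_negMulLog_one_sub, binEntropy_eq_negMulLog_add_negMulLog_one_sub]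
  have g1 := gibbs1 hc h0
  have g2 := gibbs1 (sub_nonneg.2 hc1) (sub_pos.2 h1)
  have e1 : negMulLog c0 = -c0 * log c0 := rfl
  have e2 : negMulLog (1 - c0) = -(1 - c0) * log (1 - c0) := rfl
  rw [e1, e2]
  linarith

/-- linear lower bound for the functional of a cut -/
theorem cut_linear {α β γ c0 : ℝ} (hα : 0 ≤ α) (hβ : 0 ≤ β) (hγ : 0 ≤ γ)
    (h : α + 2 * γ + β = 1) (h0 : 15 / 16 ≤ c0) (h1 : c0 < 1) :
    log 2 - 3 * binEntropy c0 + 3 * (log c0 - log (1 - c0)) * (2 * γ - c0) ≤
      4 * (negMulLog (α + γ) + negMulLog (β + γ)) -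
      3 * (negMulLog α + 2 * negMulLog γ + negMulLog β) := by
  rcases le_or_gt (1 / 8) γ with h8 | h8
  · have s1 := cut_lower hα hβ h8 h
    have s2 := binEntropy_tangent (c := 2 * γ) (by linarith) (by linarith) (by linarith : 0 < c0) h1
    linarith
  · have l2 : 0 < log 2 := log_pos (by norm_num)
    have lam : 7 / 2 * log 2 ≤ log c0 - log (1 - c0) := by
      rw [← log_div (by linarith) (by linarith)]
      have a1 : (15 : ℝ) ≤ c0 / (1 - c0) := by
        rw [le_div_iff₀ (by linarith)]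
        linarith
      have a2 : log 15 ≤ log (c0 / (1 - c0)) := log_le_log (by norm_num) a1
      have a3 : 7 * log 2 ≤ 2 * log 15 := by
        have : log ((2 : ℝ) ^ 7) ≤ log ((15 : ℝ) ^ 2) := log_le_log (by norm_num) (by norm_num)
        rw [log_pow, log_pow] at this
        exact_mod_cast this
      linarith
    have l4 : log (1 / 4 : ℝ) = -(2 * log 2) := by
      rw [show (1 / 4 : ℝ) = (2 ^ 2)⁻¹ by norm_num, log_inv, log_pow]
      norm_num
    have g1 := gibbs1 hα (by norm_num : (0 : ℝ) < 1 / 4)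
    have g2 := gibbs1 hβ (by norm_num : (0 : ℝ) < 1 / 4)
    have g3 := gibbs1 hγ (by norm_num : (0 : ℝ) < 1 / 4)
    rw [l4] at g1 g2 g3
    have n1 : 0 ≤ negMulLog (α + γ) := negMulLog_nonneg (by linarith) (by linarith)
    have n2 : 0 ≤ negMulLog (β + γ) := negMulLog_nonneg (by linarith) (by linarith)
    have e2 : negMulLog α + 2 * negMulLog γ + negMulLog β ≤ 2 * log 2 := by
      have : (α + 2 * γ + β) * (2 * log 2) = 2 * log 2 := by rw [h, one_mul]
      linarith
    have b0 : 0 ≤ binEntropy c0 := binEntropy_nonneg (by linarith) h1.le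
    have k1 : 3 * (log c0 - log (1 - c0)) * (2 * γ - c0) ≤ 3 * (7 / 2 * log 2) * (-(11 / 16)) := by
      have k2 : 11 / 16 ≤ c0 - 2 * γ := by linarith
      have k3 : 3 * (7 / 2 * log 2) * (11 / 16) ≤
          3 * (log c0 - log (1 - c0)) * (c0 - 2 * γ) := by
        apply mul_le_mul (by linarith) k2 (by norm_num)
        have : 0 < 7 / 2 * log 2 := by positivity
        linarith
      linarith
    linarith

/-- the mass of a cut -/
noncomputable def cutm (q : V → V → ℝ) (φ : V → Bool) : ℝ :=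
  ∑ a, ∑ b, q a b * (if φ a ≠ φ b then 1 else 0)

theorem cutm_eq (hq : EdgeLaw H q) (φ : V → Bool) : cutm q φ = 2 * cell q φ true false := by
  have h1 : ∀ a, ∑ b, q a b * (if φ a ≠ φ b then 1 else 0) = ∑ b with φ b = !φ a, q a b := by
    intro a
    rw [Finset.sum_filter]
    refine Finset.sum_congr rfl fun b _ => ?_
    cases φ a <;> cases φ b <;> simp
  unfold cutm
  rw [Finset.sum_congr rfl fun a _ => h1 a, sum_bool_split φ]
  have h2 : ∑ a with φ a = true, ∑ b with φ b = !φ a, q a b = cell q φ true false := by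
    refine Finset.sum_congr rfl fun a ha => ?_
    simp only [Finset.mem_filter, Finset.mem_univ, true_and] at ha
    rw [ha]
    rfl
  have h3 : ∑ a with φ a = false, ∑ b with φ b = !φ a, q a b = cell q φ false true := by
    refine Finset.sum_congr rfl fun a ha => ?_
    simp only [Finset.mem_filter, Finset.mem_univ, true_and] at ha
    rw [ha]
    rfl
  rw [h2, h3, cell_symm hq φ false true]
  ring

/-- the cut version: cuts `φ t` with weights `m t` of total `1` such that every edge is cut with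
weight at least `s ≥ c0`, where `3 h(c0) < log 2`. -/
theorem fm_pos_of_cuts {T : Type*} [Fintype T] (φ : T → V → Bool) (m : T → ℝ)
    (hm : ∀ t, 0 ≤ m t) (hm1 : ∑ t, m t = 1) {c0 s : ℝ} (h15 : 15 / 16 ≤ c0) (hc1 : c0 < 1)
    (hc : 3 * binEntropy c0 < log 2) (hs : c0 ≤ s)
    (hcov : ∀ a b, H.Adj a b → s ≤ ∑ t, m t * (if φ t a ≠ φ t b then 1 else 0))
    (hq : EdgeLaw H q) : 0 < ∑ t, m t * fm q (φ t) := by
  have hlam : 0 ≤ 3 * (log c0 - log (1 - c0)) := by
    have : log (1 - c0) ≤ log c0 := log_le_log (by linarith) (by linarith)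
    linarith
  have h1 : ∀ t, log 2 - 3 * binEntropy c0 + 3 * (log c0 - log (1 - c0)) *
      (cutm q (φ t) - c0) ≤ fm q (φ t) := by
    intro t
    rw [fm_eq hq, cutm_eq hq]
    exact cut_linear (cell_nonneg hq _ _ _) (cell_nonneg hq _ _ _) (cell_nonneg hq _ _ _)
      (cell_total hq _) h15 hc1
  have h2 : s ≤ ∑ t, m t * cutm q (φ t) := by
    have e1 : ∑ t, m t * cutm q (φ t) =
        ∑ a, ∑ b, q a b * ∑ t, m t * (if φ t a ≠ φ t b then 1 else 0) := by
      unfold cutm
      simp_rw [Finset.mul_sum]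
      rw [Finset.sum_comm]
      refine Finset.sum_congr rfl fun a _ => ?_
      rw [Finset.sum_comm]
      refine Finset.sum_congr rfl fun b _ => Finset.sum_congr rfl fun t _ => ?_
      ring
    rw [e1]
    calc s = ∑ a, ∑ b, q a b * s := by
          simp_rw [← Finset.sum_mul]
          rw [hq.sum_one, one_mul]
      _ ≤ _ := by
        refine Finset.sum_le_sum fun a _ => Finset.sum_le_sum fun b _ => ?_
        by_cases hab : H.Adj a b
        · exact mul_le_mul_of_nonneg_left (hcov a b hab) (hq.nonneg a b)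
        · rw [hq.supp a b hab, zero_mul, zero_mul]
  have h3 : ∑ t, m t * (log 2 - 3 * binEntropy c0 + 3 * (log c0 - log (1 - c0)) *
      (cutm q (φ t) - c0)) ≤ ∑ t, m t * fm q (φ t) :=
    Finset.sum_le_sum fun t _ => mul_le_mul_of_nonneg_left (h1 t) (hm t)
  have h4 : ∑ t, m t * (log 2 - 3 * binEntropy c0 + 3 * (log c0 - log (1 - c0)) *
      (cutm q (φ t) - c0)) = log 2 - 3 * binEntropy c0 + 3 * (log c0 - log (1 - c0)) *
      (∑ t, m t * cutm q (φ t) - c0) := by
    have e : ∀ t, m t * (log 2 - 3 * binEntropy c0 + 3 * (log c0 - log (1 - c0)) *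
      (cutm q (φ t) - c0)) = m t * (log 2 - 3 * binEntropy c0 -
        3 * (log c0 - log (1 - c0)) * c0) + 3 * (log c0 - log (1 - c0)) *
        (m t * cutm q (φ t)) := fun t => by ring
    rw [Finset.sum_congr rfl fun t _ => e t, Finset.sum_add_distrib, ← Finset.sum_mul, hm1,
      ← Finset.mul_sum]
    ring
  have h5 : 0 ≤ 3 * (log c0 - log (1 - c0)) * (∑ t, m t * cutm q (φ t) - c0) :=
    mul_nonneg hlam (by linarith)
  rw [h4] at h3
  linarith

/-- `3 h(107/114) < log 2`; `107/114 = 0.938596..`, the root is `0.938509..` -/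
theorem cut_num : 3 * binEntropy (107 / 114 : ℝ) < log 2 := by
  have h : (114 : ℝ) ^ 114 < 2 ^ 38 * 107 ^ 107 * 7 ^ 7 := by norm_num
  have h1 := log_lt_log (by positivity) h
  rw [log_mul (by positivity) (by positivity), log_mul (by positivity) (by positivity), log_pow,
    log_pow, log_pow, log_pow] at h1
  push_cast at h1
  rw [binEntropy_eq_negMulLog_add_negMulLog_one_sub,
    show (1 : ℝ) - 107 / 114 = 7 / 114 by norm_num, negMulLog, negMulLog,
    log_div (by norm_num) (by norm_num), log_div (by norm_num) (by norm_num)]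
  linarith

/-! ## the hypothesis (*) of Theorem F -/

theorem edgeLaw_of_mem (H : SimpleGraph V) {q : V → V → ℝ} (hq : q ∈ SymProb V)
    (h : ∀ a b, ¬ H.Adj a b → q a b = 0) : EdgeLaw H q :=
  ⟨hq.1, hq.2.1, hq.2.2, h⟩

theorem entFun_bool {T : Type*} [Fintype T] (φ : T → V → Bool) (m : T → ℝ) (q : V → V → ℝ) :
    entFun (C := fun _ => Bool) φ m q = ∑ t, m t * fm q (φ t) := rfl

/-- weighted independent sets (fractional colourings of weight `1 / s`) -/
theorem star_of_indep (H : SimpleGraph V) {T : Type*} [Fintype T] (φ : T → V → Bool) (m : T → ℝ)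
    (hφ : ∀ t, IsIndep H (φ t)) (hm : ∀ t, 0 ≤ m t) (hm1 : ∑ t, m t = 1) {s : ℝ} (hs : 0 < s)
    (hes : ef s < 0) (hcov : ∀ a, s ≤ ∑ t, m t * (if φ t a = true then 1 else 0)) :
    ∀ q ∈ SymProb V, (∀ a b, ¬ H.Adj a b → q a b = 0) →
      0 < entFun (C := fun _ => Bool) φ m q := by
  intro q hq h
  rw [entFun_bool]
  exact fm_pos_of_indep φ m hφ hm hm1 hs hes hcov (edgeLaw_of_mem H hq h)

/-- weighted cuts -/
theorem star_of_cuts (H : SimpleGraph V) {T : Type*} [Fintype T] (φ : T → V → Bool) (m : T → ℝ)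
    (hm : ∀ t, 0 ≤ m t) (hm1 : ∑ t, m t = 1) {c0 s : ℝ} (h15 : 15 / 16 ≤ c0) (hc1 : c0 < 1)
    (hc : 3 * binEntropy c0 < log 2) (hs : c0 ≤ s)
    (hcov : ∀ a b, H.Adj a b → s ≤ ∑ t, m t * (if φ t a ≠ φ t b then 1 else 0)) :
    ∀ q ∈ SymProb V, (∀ a b, ¬ H.Adj a b → q a b = 0) →
      0 < entFun (C := fun _ => Bool) φ m q := by
  intro q hq h
  rw [entFun_bool]
  exact fm_pos_of_cuts φ m hm hm1 h15 hc1 hc hs hcov (edgeLaw_of_mem H hq h)

/-- set colourings: every vertex gets at least `k` of the `n` colours, adjacent vertices get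
disjoint sets (a homomorphism to the Kneser graph `K(n, k)`), `e(k/n) < 0` -/
theorem star_of_setColouring (H : SimpleGraph V) {T : Type*} [Fintype T] [DecidableEq T]
    (c : V → Finset T) {k : ℕ} (hk0 : 0 < k) (hT : 0 < Fintype.card T)
    (hk : ∀ a, k ≤ (c a).card) (hd : ∀ a b, H.Adj a b → Disjoint (c a) (c b))
    (he : ef (k / Fintype.card T) < 0) :
    ∀ q ∈ SymProb V, (∀ a b, ¬ H.Adj a b → q a b = 0) →
      0 < entFun (C := fun _ => Bool) (fun (t : T) a => decide (t ∈ c a))
        (fun _ => ((Fintype.card T : ℝ))⁻¹) q := by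
  have hT' : (0 : ℝ) < Fintype.card T := by exact_mod_cast hT
  have hk' : (0 : ℝ) < k := by exact_mod_cast hk0
  refine star_of_indep H _ _ ?_ (fun _ => by positivity) ?_ (s := k / Fintype.card T)
    (by positivity) he ?_
  · intro t a b ha hb hab
    simp only [decide_eq_true_eq] at ha hb
    exact Finset.disjoint_left.1 (hd a b hab) ha hb
  · rw [Finset.sum_const, Finset.card_univ, nsmul_eq_mul, mul_inv_cancel₀ hT'.ne']
  · intro a
    have e : ∑ t : T, ((Fintype.card T : ℝ))⁻¹ * (if decide (t ∈ c a) = true then 1 else 0) =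
        (c a).card / Fintype.card T := by
      rw [← Finset.mul_sum]
      have : ∑ t : T, (if decide (t ∈ c a) = true then (1 : ℝ) else 0) = (c a).card := by
        simp
      rw [this]
      field_simp
    rw [e]
    exact div_le_div_of_nonneg_right (by exact_mod_cast hk a) hT'.le

/-- `χ_f(H) ≤ 342/157 = 2.17834..` -/
theorem star_of_setColouring_num (H : SimpleGraph V) {T : Type*} [Fintype T] [DecidableEq T]
    (c : V → Finset T) {k : ℕ} (hk0 : 0 < k)
    (hk : ∀ a, k ≤ (c a).card) (hd : ∀ a b, H.Adj a b → Disjoint (c a) (c b))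
    (h : 157 * Fintype.card T ≤ 342 * k) :
    ∀ q ∈ SymProb V, (∀ a b, ¬ H.Adj a b → q a b = 0) →
      0 < entFun (C := fun _ => Bool) (fun (t : T) a => decide (t ∈ c a))
        (fun _ => ((Fintype.card T : ℝ))⁻¹) q := by
  by_cases h2 : 2 * k ≤ Fintype.card T
  swap
  · intro q hq hs
    exfalso
    have h0 : ∀ a b, q a b = 0 := by
      intro a b
      apply hs
      intro hab
      have e1 := Finset.card_union_of_disjoint (hd a b hab)
      have e2 := Finset.card_le_univ (c a ∪ c b)
      have e3 := hk a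
      have e4 := hk b
      omega
    have h1 := hq.2.2
    simp [h0] at h1
  have hT : 0 < Fintype.card T := by omega
  have hT' : (0 : ℝ) < Fintype.card T := by exact_mod_cast hT
  refine star_of_setColouring H c hk0 hT hk hd ?_
  refine ef_neg_of_le (s := 157 / 342) (by norm_num) ?_ ?_ ef_num
  · rw [div_le_div_iff₀ (by norm_num) hT']
    have : ((157 * Fintype.card T : ℕ) : ℝ) ≤ ((342 * k : ℕ) : ℝ) := by exact_mod_cast h
    push_cast at this
    linarith
  · rw [div_le_div_iff₀ hT' (by norm_num)]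
    have : ((2 * k : ℕ) : ℝ) ≤ (Fintype.card T : ℝ) := by exact_mod_cast h2
    push_cast at this
    linarith

end two

end HypF
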