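import Mathlib

/-!
# The gap (MP_e30c56_F.md, section 7, GAP)

A strict inequality for all symmetric probabilities carried by the edges of a finite graph holds,
by compactness, for all symmetric probabilities which are almost carried by the edges.
-/

open Set Finset

namespace HypF

/-- Compactness: a continuous function which is positive at the zeros of a nonnegative continuous
function `N` on a compact set is positive where `N` is small. -/
theorem gap_of_isCompact {E : Type*} [TopologicalSpace E] {K : Set E} (hK : IsCompact K)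
    {F N : E → ℝ} (hF : ContinuousOn F K) (hN : ContinuousOn N K) (hN0 : ∀ q ∈ K, 0 ≤ N q)
    (h : ∀ q ∈ K, N q = 0 → 0 < F q) : ∃ e0 : ℝ, 0 < e0 ∧ ∀ q ∈ K, N q ≤ e0 → 0 < F q := by
  classical
  let f : K → ℝ := fun q => F q
  let g : K → ℝ := fun q => N q
  have hf : Continuous f := hF.domRestrict
  have hg : Continuous g := hN.domRestrict
  have : CompactSpace K := isCompact_iff_compactSpace.1 hK
  have hC : IsCompact {q : K | f q ≤ 0} := (isClosed_le hf continuous_const).isCompact
  rcases Set.eq_empty_or_nonempty {q : K | f q ≤ 0} with he | hne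
  · refine ⟨1, one_pos, fun q hq _ => ?_⟩
    by_contra hcon
    have : (⟨q, hq⟩ : K) ∈ {q : K | f q ≤ 0} := not_lt.1 hcon
    rw [he] at this
    exact this
  · obtain ⟨q0, hq0, hmin⟩ := hC.exists_isMinOn hne hg.continuousOn
    have h0 : 0 < g q0 := by
      rcases lt_or_eq_of_le (hN0 q0 q0.2) with h1 | h1
      · exact h1
      · exact absurd (h q0 q0.2 h1.symm) (not_lt.2 hq0)
    refine ⟨g q0 / 2, by positivity, fun q hq hle => ?_⟩
    by_contra hcon
    have h1 : (⟨q, hq⟩ : K) ∈ {q : K | f q ≤ 0} := not_lt.1 hcon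
    have h2 : g q0 ≤ N q := hmin h1
    linarith

section Sym

variable {V : Type*} [Fintype V]

/-- symmetric probabilities on `V × V` -/
def SymProb (V : Type*) [Fintype V] : Set (V → V → ℝ) :=
  {q | (∀ a b, 0 ≤ q a b) ∧ (∀ a b, q a b = q b a) ∧ ∑ a, ∑ b, q a b = 1}

theorem isCompact_symProb : IsCompact (SymProb V) := by
  have hsub : SymProb V ⊆ Set.pi Set.univ fun _ => Set.pi Set.univ fun _ => Set.Icc (0 : ℝ) 1 := by
    rintro q ⟨h0, _, h1⟩ a _ b _
    refine ⟨h0 a b, ?_⟩
    rw [← h1]
    calc q a b ≤ ∑ b', q a b' :=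
          Finset.single_le_sum (f := fun b' => q a b') (fun b' _ => h0 a b') (Finset.mem_univ b)
      _ ≤ ∑ a', ∑ b', q a' b' :=
          Finset.single_le_sum (f := fun a' => ∑ b', q a' b')
            (fun a' _ => Finset.sum_nonneg fun b' _ => h0 a' b') (Finset.mem_univ a)
  refine (isCompact_univ_pi fun _ => isCompact_univ_pi fun _ => isCompact_Icc).of_isClosed_subset
    ?_ hsub
  have hc : ∀ a b, Continuous fun q : V → V → ℝ => q a b := fun a b =>
    (continuous_apply b).comp (continuous_apply a)
  have e : SymProb V = (⋂ a, ⋂ b, {q : V → V → ℝ | 0 ≤ q a b}) ∩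
      ((⋂ a, ⋂ b, {q : V → V → ℝ | q a b = q b a}) ∩ {q | ∑ a, ∑ b, q a b = 1}) := by
    ext q
    simp [SymProb]
  rw [e]
  refine IsClosed.inter (isClosed_iInter fun a => isClosed_iInter fun b =>
    isClosed_le continuous_const (hc a b)) (IsClosed.inter
    (isClosed_iInter fun a => isClosed_iInter fun b => isClosed_eq (hc a b) (hc b a)) ?_)
  exact isClosed_eq (continuous_finsetSum _ fun a _ => continuous_finsetSum _ fun b _ => hc a b)
    continuous_const

variable {T : Type*} [Fintype T] {C : T → Type*} [∀ t, Fintype (C t)] [∀ t, DecidableEq (C t)]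

/-- The entropy functional of section 7: `∑ t, m t (4 Ent (φ_t q_1) - 3 Ent ((φ_t × φ_t) q))`. -/
noncomputable def entFun (φ : ∀ t, V → C t) (m : T → ℝ) (q : V → V → ℝ) : ℝ :=
  ∑ t, m t * (4 * ∑ c : C t, Real.negMulLog (∑ a with φ t a = c, ∑ b, q a b) -
    3 * ∑ c : C t, ∑ c' : C t, Real.negMulLog (∑ a with φ t a = c, ∑ b with φ t b = c', q a b))

theorem continuous_entFun (φ : ∀ t, V → C t) (m : T → ℝ) : Continuous (entFun φ m) := by
  unfold entFun
  have hc : ∀ a b, Continuous fun q : V → V → ℝ => q a b := fun a b =>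
    (continuous_apply b).comp (continuous_apply a)
  refine continuous_finsetSum _ fun t _ => Continuous.mul continuous_const
    (Continuous.sub (Continuous.mul continuous_const ?_) (Continuous.mul continuous_const ?_))
  · exact continuous_finsetSum _ fun c _ => Real.continuous_negMulLog.comp
      (continuous_finsetSum _ fun a _ => continuous_finsetSum _ fun b _ => hc a b)
  · exact continuous_finsetSum _ fun c _ => continuous_finsetSum _ fun c' _ =>
      Real.continuous_negMulLog.comp
      (continuous_finsetSum _ fun a _ => continuous_finsetSum _ fun b _ => hc a b)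

/-- **The gap.** -/
theorem exists_gap (adj : V → V → Prop) [∀ a, DecidablePred (adj a)] (φ : ∀ t, V → C t)
    (m : T → ℝ) (h : ∀ q ∈ SymProb V, (∀ a b, ¬ adj a b → q a b = 0) → 0 < entFun φ m q) :
    ∃ e0 : ℝ, 0 < e0 ∧ ∀ q ∈ SymProb V, (∑ a, ∑ b with ¬ adj a b, q a b) ≤ e0 →
      0 < entFun φ m q := by
  refine gap_of_isCompact isCompact_symProb (continuous_entFun φ m).continuousOn ?_ ?_ ?_
  · have hc : ∀ a b, Continuous fun q : V → V → ℝ => q a b := fun a b =>
      (continuous_apply b).comp (continuous_apply a)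
    exact (continuous_finsetSum _ fun a _ => continuous_finsetSum _ fun b _ =>
      hc a b).continuousOn
  · exact fun q hq => Finset.sum_nonneg fun a _ => Finset.sum_nonneg fun b _ => hq.1 a b
  · intro q hq h0
    apply h q hq
    intro a b hab
    have h1 := (Finset.sum_eq_zero_iff_of_nonneg fun a _ =>
      Finset.sum_nonneg fun b _ => hq.1 a b).1 h0 a (Finset.mem_univ a)
    exact (Finset.sum_eq_zero_iff_of_nonneg fun b _ => hq.1 a b).1 h1 b (by simp [hab])

end Sym

end HypF
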