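import Pool.Agent.Lib.HypF.Gap
import Pool.Agent.Lib.HypVec.Ent

/-!
# H2 / HypF: the law of an exchangeable pair (page MP_e30c56_F.md, section 7)

`σ` a measure preserving involution, `G : Ω → V` finite valued: the law of `(G, G ∘ σ)` is a symmetric
probability, `entFun` of it is the entropy expression of the proof, and its mass outside the edges is the
probability that `G ω` and `G (σ ω)` are not adjacent.
-/

namespace HypF

open MeasureTheory
open Pool.Agent.HypEnt

variable {Ω : Type*} [MeasurableSpace Ω] (μ : Measure Ω) [IsProbabilityMeasure μ] {V : Type*}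
  [Fintype V]

/-- the joint law of two finite valued variables -/
noncomputable def law (μ : Measure Ω) (G G' : Ω → V) (a b : V) : ℝ :=
  μ.real ((fun ω => (G ω, G' ω)) ⁻¹' {(a, b)})

theorem law_mem_symProb {σ : Ω → Ω} (hσ : MeasurePreserving σ μ μ) (hσσ : ∀ ω, σ (σ ω) = ω)
    {G : Ω → V} (hG : FM G) : law μ G (fun ω => G (σ ω)) ∈ SymProb V := by
  have hG' : FM (fun ω => G (σ ω)) := fun a => hσ.measurable (hG a)
  refine ⟨fun a b => measureReal_nonneg, fun a b => ?_, ?_⟩
  · unfold law
    rw [← hσ.measureReal_preimage ((hG.prodMk hG') (a, b)).nullMeasurableSet]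
    congr 1
    ext ω
    simp only [Set.mem_preimage, Set.mem_singleton_iff, Prod.mk.injEq, hσσ]
    tauto
  · have := sum_real μ (hG.prodMk hG')
    rw [Fintype.sum_prod_type] at this
    exact this

theorem sum_law_right {G G' : Ω → V} (hG : FM G) (hG' : FM G') (a : V) :
    ∑ b, law μ G G' a b = μ.real (G ⁻¹' {a}) := (real_fst μ hG hG' a).symm

theorem ent_comp_eq {G G' : Ω → V} (hG : FM G) (hG' : FM G') {C : Type*} [Fintype C]
    [DecidableEq C] (φ : V → C) :
    ent μ (fun ω => φ (G ω)) =
      ∑ c : C, Real.negMulLog (∑ a with φ a = c, ∑ b, law μ G G' a b) := by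
  unfold ent
  refine Finset.sum_congr rfl fun c _ => ?_
  rw [real_comp μ hG φ c]
  congr 1
  exact Finset.sum_congr rfl fun a _ => (sum_law_right μ hG hG' a).symm

theorem ent_pair_eq {G G' : Ω → V} (hG : FM G) (hG' : FM G') {C : Type*} [Fintype C]
    [DecidableEq C] (φ : V → C) :
    ent μ (fun ω => (φ (G ω), φ (G' ω))) =
      ∑ c : C, ∑ c' : C,
        Real.negMulLog (∑ a with φ a = c, ∑ b with φ b = c', law μ G G' a b) := by
  unfold ent
  rw [Fintype.sum_prod_type]
  refine Finset.sum_congr rfl fun c _ => Finset.sum_congr rfl fun c' _ => ?_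
  have h := real_comp μ (hG.prodMk hG') (fun p : V × V => (φ p.1, φ p.2)) (c, c')
  have h2 : (fun ω => (φ (G ω), φ (G' ω))) ⁻¹' {(c, c')}
      = (fun ω => (fun p : V × V => (φ p.1, φ p.2)) (G ω, G' ω)) ⁻¹' {(c, c')} := rfl
  rw [h2, h]
  congr 1
  rw [show (Finset.univ.filter fun p : V × V => (φ p.1, φ p.2) = (c, c'))
      = (Finset.univ.filter fun a => φ a = c) ×ˢ (Finset.univ.filter fun b => φ b = c') from ?_,
    Finset.sum_product]
  · rfl
  · ext p
    simp [Prod.ext_iff]

variable {T : Type*} [Fintype T] {C : T → Type*} [∀ t, Fintype (C t)] [∀ t, DecidableEq (C t)]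

/-- the entropy functional of the law -/
theorem entFun_law {G G' : Ω → V} (hG : FM G) (hG' : FM G') (φ : ∀ t, V → C t) (m : T → ℝ) :
    entFun φ m (law μ G G') = ∑ t, m t * (4 * ent μ (fun ω => φ t (G ω)) -
      3 * ent μ (fun ω => (φ t (G ω), φ t (G' ω)))) := by
  unfold entFun
  refine Finset.sum_congr rfl fun t _ => ?_
  rw [ent_comp_eq μ hG hG' (φ t), ent_pair_eq μ hG hG' (φ t)]

/-- mass of the non edges -/
theorem sum_law_nonadj {G G' : Ω → V} (hG : FM G) (hG' : FM G') (adj : V → V → Prop)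
    [∀ a, DecidablePred (adj a)] :
    ∑ a, ∑ b with ¬ adj a b, law μ G G' a b = μ.real {ω | ¬ adj (G ω) (G' ω)} := by
  classical
  have h := real_comp μ (hG.prodMk hG') (fun p : V × V => decide (¬ adj p.1 p.2)) true
  have h2 : (fun ω => (fun p : V × V => decide (¬ adj p.1 p.2)) (G ω, G' ω)) ⁻¹' {true}
      = {ω | ¬ adj (G ω) (G' ω)} := by
    ext ω
    simp
  rw [h2] at h
  rw [h, Finset.sum_filter, Fintype.sum_prod_type]
  refine Finset.sum_congr rfl fun a _ => ?_
  rw [Finset.sum_filter]
  refine Finset.sum_congr rfl fun b _ => ?_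
  simp only [decide_eq_true_eq]
  rfl

end HypF
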