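import Mathlib

/-!
# Windows: Borel choice of finite window functions (MP_e30c56_F.md, section 7, WINDOWS)

`P` countable, `A` finite, `μ` a probability measure on `P → A`.  A jointly measurable function
`f : X × (P → A) → V` with `V` finite is approximated, for every `x : X`, up to measure `ε`, by a
function of finitely many coordinates, chosen from a fixed countable list in a measurable way.
-/

open MeasureTheory Set
open scoped ENNReal symmDiff

namespace HypF

variable {P A V X : Type*}

/-- `g` depends on finitely many coordinates. -/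
def IsWin (g : (P → A) → V) : Prop :=
  ∃ R : Finset P, ∀ o o' : P → A, (∀ x ∈ R, o x = o' x) → g o = g o'

theorem IsWin.const (v : V) : IsWin (fun _ : P → A => v) := ⟨∅, fun _ _ _ => rfl⟩

theorem IsWin.comp {V' : Type*} {g : (P → A) → V} (hg : IsWin g) (φ : V → V') :
    IsWin (fun o => φ (g o)) := by
  obtain ⟨R, hR⟩ := hg
  exact ⟨R, fun o o' h => congrArg φ (hR o o' h)⟩

theorem IsWin.prodMk {V' : Type*} {g : (P → A) → V} {g' : (P → A) → V'} (hg : IsWin g)
    (hg' : IsWin g') : IsWin (fun o => (g o, g' o)) := by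
  classical
  obtain ⟨R, hR⟩ := hg
  obtain ⟨R', hR'⟩ := hg'
  refine ⟨R ∪ R', fun o o' h => ?_⟩
  simp only
  rw [hR o o' fun x hx => h x (Finset.mem_union_left _ hx),
    hR' o o' fun x hx => h x (Finset.mem_union_right _ hx)]

/-- All window functions: a finite set of coordinates and a table. -/
abbrev Win (P A V : Type*) : Type _ := Σ R : Finset P, ((R → A) → V)

/-- The function given by a window. -/
def Win.fn (w : Win P A V) (o : P → A) : V := w.2 (fun x => o x)

theorem Win.isWin (w : Win P A V) : IsWin w.fn := by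
  refine ⟨w.1, fun o o' h => ?_⟩
  have h1 : (fun x : w.1 => o x) = (fun x : w.1 => o' x) := funext fun x => h x x.2
  exact congrArg w.2 h1

theorem IsWin.exists_win [Nonempty A] {g : (P → A) → V} (hg : IsWin g) :
    ∃ w : Win P A V, w.fn = g := by
  classical
  obtain ⟨R, hR⟩ := hg
  let a : A := Classical.arbitrary A
  refine ⟨⟨R, fun t => g (fun x => if h : x ∈ R then t ⟨x, h⟩ else a)⟩, ?_⟩
  funext o
  apply hR
  intro x hx
  simp [hx]

section Meas

variable [MeasurableSpace A] [MeasurableSingletonClass A] [Finite A]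

theorem Win.measurable [MeasurableSpace V] (w : Win P A V) : Measurable w.fn := by
  have h1 : Measurable (fun (o : P → A) (x : w.1) => o x) :=
    measurable_pi_lambda _ fun x => measurable_pi_apply _
  have h2 : Measurable w.2 := measurable_of_finite w.2
  exact h2.comp h1

theorem IsWin.measurable [MeasurableSpace V] {g : (P → A) → V} (hg : IsWin g) :
    Measurable g := by
  rcases isEmpty_or_nonempty A with hA | hA
  · rcases isEmpty_or_nonempty P with hP | hP
    · have : Finite (P → A) := Finite.of_subsingleton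
      exact measurable_of_finite g
    · have : IsEmpty (P → A) := inferInstance
      exact measurable_of_empty g
  · obtain ⟨w, rfl⟩ := hg.exists_win
    exact w.measurable

/-- The algebra of sets determined by finitely many coordinates. -/
def winAlg (P A : Type*) : Set (Set (P → A)) := {S | IsWin (fun o => o ∈ S)}

omit [MeasurableSpace A] [MeasurableSingletonClass A] [Finite A] in
theorem isSetAlgebra_winAlg : IsSetAlgebra (winAlg P A) where
  empty_mem := ⟨∅, fun _ _ _ => rfl⟩
  compl_mem := by
    rintro S ⟨R, hR⟩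
    exact ⟨R, fun o o' h => by
      have := hR o o' h
      simp only [mem_compl_iff, eq_iff_iff] at this ⊢
      rw [this]⟩
  union_mem := by
    classical
    rintro S T ⟨R, hR⟩ ⟨R', hR'⟩
    refine ⟨R ∪ R', fun o o' h => ?_⟩
    have h1 := hR o o' fun x hx => h x (Finset.mem_union_left _ hx)
    have h2 := hR' o o' fun x hx => h x (Finset.mem_union_right _ hx)
    simp only [mem_union, eq_iff_iff] at h1 h2 ⊢
    rw [h1, h2]

theorem generateFrom_winAlg :
    (MeasurableSpace.pi : MeasurableSpace (P → A)) =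
      MeasurableSpace.generateFrom (winAlg P A) := by
  apply le_antisymm
  · refine iSup_le fun x => ?_
    rintro _ ⟨s, hs, rfl⟩
    apply MeasurableSpace.measurableSet_generateFrom
    refine ⟨{x}, fun o o' h => ?_⟩
    have := h x (Finset.mem_singleton_self x)
    simp only [mem_preimage, this]
  · apply MeasurableSpace.generateFrom_le
    rintro S ⟨R, hR⟩
    have h : IsWin (fun o : P → A => o ∈ S) := ⟨R, hR⟩
    exact measurableSet_setOfPred.2 h.measurable

theorem exists_win_approx [Finite V] [Nonempty V] [MeasurableSpace V] [MeasurableSingletonClass V]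
    (μ : Measure (P → A)) [IsFiniteMeasure μ] (f : (P → A) → V) (hf : Measurable f)
    {ε : ℝ≥0∞} (hε : 0 < ε) : ∃ g : (P → A) → V, IsWin g ∧ μ {o | f o ≠ g o} ≤ ε := by
  classical
  have := Fintype.ofFinite V
  have hdense : μ.MeasureDense (winAlg P A) :=
    Measure.MeasureDense.of_generateFrom_isSetAlgebra_finite μ isSetAlgebra_winAlg
      generateFrom_winAlg
  -- a real number below
  obtain ⟨δ, hδ, hδε⟩ : ∃ δ : ℝ, 0 < δ ∧
      (Fintype.card V : ℝ≥0∞) * ENNReal.ofReal δ ≤ ε := by
    have hc : (Fintype.card V : ℝ≥0∞) ≠ 0 := by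
      simp [Fintype.card_ne_zero]
    have hc' : (Fintype.card V : ℝ≥0∞) ≠ ∞ := ENNReal.natCast_ne_top _
    have h1 : 0 < min ε 1 / (Fintype.card V : ℝ≥0∞) :=
      ENNReal.div_pos (by simp [hε.ne']) hc'
    have h2 : min ε 1 / (Fintype.card V : ℝ≥0∞) ≠ ∞ :=
      (ENNReal.div_lt_top (by simp) hc).ne
    refine ⟨(min ε 1 / (Fintype.card V : ℝ≥0∞)).toReal, ENNReal.toReal_pos h1.ne' h2, ?_⟩
    rw [ENNReal.ofReal_toReal h2, ENNReal.mul_div_cancel hc hc']
    exact min_le_left _ _
  have hS : ∀ v : V, ∃ t ∈ winAlg P A, μ ((f ⁻¹' {v}) ∆ t) < ENNReal.ofReal δ := fun v =>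
    hdense.approx _ (hf (measurableSet_singleton v)) (measure_ne_top _ _) δ hδ
  choose S hSw hSμ using hS
  let v0 : V := Classical.arbitrary V
  let g : (P → A) → V := fun o => if h : ∃ v, o ∈ S v then Classical.choose h else v0
  refine ⟨g, ?_, ?_⟩
  · choose R hR using hSw
    refine ⟨Finset.univ.biUnion R, fun o o' h => ?_⟩
    have h1 : (fun v => o ∈ S v) = (fun v => o' ∈ S v) := by
      funext v
      exact hR v o o' fun x hx => h x (Finset.mem_biUnion.2 ⟨v, Finset.mem_univ _, hx⟩)
    show (if h : ∃ v, o ∈ S v then Classical.choose h else v0) =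
      (if h : ∃ v, o' ∈ S v then Classical.choose h else v0)
    have h2 : ∀ (p q : V → Prop), p = q → (if h : ∃ v, p v then Classical.choose h else v0) =
        (if h : ∃ v, q v then Classical.choose h else v0) := by
      rintro p q rfl
      rfl
    exact h2 _ _ h1
  · have hsub : {o | f o ≠ g o} ⊆ ⋃ v : V, (f ⁻¹' {v}) ∆ (S v) := by
      intro o ho
      by_contra hcon
      simp only [mem_iUnion, not_exists] at hcon
      have h1 : ∀ v, o ∈ S v ↔ f o = v := by
        intro v
        have := hcon v
        rw [mem_symmDiff] at this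
        simp only [mem_preimage, mem_singleton_iff] at this
        tauto
      have h2 : ∃ v, o ∈ S v := ⟨f o, (h1 _).2 rfl⟩
      apply ho
      show f o = (if h : ∃ v, o ∈ S v then Classical.choose h else v0)
      rw [dif_pos h2]
      exact (h1 _).1 (Classical.choose_spec h2)
    calc μ {o | f o ≠ g o} ≤ μ (⋃ v : V, (f ⁻¹' {v}) ∆ (S v)) := measure_mono hsub
      _ ≤ ∑ v : V, μ ((f ⁻¹' {v}) ∆ (S v)) := measure_iUnion_fintype_le _ _
      _ ≤ ∑ _v : V, ENNReal.ofReal δ := Finset.sum_le_sum fun v _ => (hSμ v).le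
      _ = (Fintype.card V : ℝ≥0∞) * ENNReal.ofReal δ := by simp
      _ ≤ ε := hδε

/-- **Borel choice of windows.** -/
theorem exists_windows [Countable P] [Nonempty A] [Finite V] [Nonempty V] [MeasurableSpace V]
    [MeasurableSingletonClass V] [MeasurableSpace X] (μ : Measure (P → A)) [IsFiniteMeasure μ]
    (f : X × (P → A) → V) (hf : Measurable f) {ε : ℝ≥0∞} (hε : 0 < ε) :
    ∃ (g : ℕ → (P → A) → V) (n : X → ℕ), (∀ k, IsWin (g k)) ∧ Measurable n ∧
      ∀ x, μ {o | f (x, o) ≠ g (n x) o} ≤ ε := by
  classical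
  have : Nonempty (Win P A V) := ⟨⟨∅, fun _ => Classical.arbitrary V⟩⟩
  obtain ⟨e, he⟩ := exists_surjective_nat (Win P A V)
  let g : ℕ → (P → A) → V := fun k => (e k).fn
  have hg : ∀ k, IsWin (g k) := fun k => (e k).isWin
  have hex : ∀ x, ∃ k, μ {o | f (x, o) ≠ g k o} ≤ ε := by
    intro x
    obtain ⟨h, hh, hμ⟩ := exists_win_approx μ (fun o => f (x, o))
      (hf.comp measurable_prodMk_left) hε
    obtain ⟨w, hw⟩ := hh.exists_win
    obtain ⟨k, hk⟩ := he w
    refine ⟨k, ?_⟩
    show μ {o | f (x, o) ≠ (e k).fn o} ≤ ε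
    rw [hk, hw]
    exact hμ
  have hmeas : ∀ k, MeasurableSet {x | μ {o | f (x, o) ≠ g k o} ≤ ε} := by
    intro k
    have h1 : MeasurableSet {p : X × (P → A) | f p ≠ g k p.2} :=
      (measurableSet_eq_fun hf ((hg k).measurable.comp measurable_snd)).compl
    exact measurableSet_le (measurable_measure_prodMk_left h1) measurable_const
  exact ⟨g, fun x => Nat.find (hex x), hg, measurable_find hex hmeas,
    fun x => Nat.find_spec (hex x)⟩

end Meas

end HypF
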