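import Pool.Agent.Lib.HypF.Mid
import Pool.Agent.Lib.HypF.Window

/-!
# H2 / HypF: (K1), (K2), (K3) for window functions and sets of coordinates
-/

namespace HypF

open MeasureTheory
open Pool.Agent.HypEnt
open Pool.Agent.HypVec (cube)

variable {P : Type*} [DecidableEq P] {A : Type*} [Fintype A]

theorem IsWin.exists_dep {G : (P → Bool) → A} (h : IsWin G) : ∃ W, Dep G W := h

theorem IsWin.fm {G : (P → Bool) → A} (h : IsWin G) : FM G := by
  obtain ⟨W, hW⟩ := h.exists_dep
  exact hW.fm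

/-- information on `G` in the bits in the set `B` -/
noncomputable def infoS (B : Set P) (G : (P → Bool) → A) : ℝ := by
  classical
  exact info (fun x => x ∈ B) G

/-- **(K1)** -/
theorem K1S (e : P ≃ P) (he : ∀ x, e (e x) = x) {B : Set P} (hB : ∀ x, e x ∈ B ↔ x ∉ B)
    (N : Finset P) (hN : ∀ x ∈ N, x ∉ B) {G : (P → Bool) → A} (hG : IsWin G) :
    (2 * ent (cube P) G - ent (cube P) (fun o => (G o, G (o ∘ e)))) / 2
      ≤ (∑ s : N → Bool, infoS B (fun o => G (ov N s o))) / 2 ^ N.card := by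
  classical
  obtain ⟨W, hW⟩ := hG.exists_dep
  exact K1 e he (fun x => x ∈ B) hB N hN hW

/-- **(K2)** -/
theorem K2S (N : Finset P) {G : (P → Bool) → A} (hG : IsWin G) :
    (∑ s : N → Bool, ent (cube P) (fun o => G (ov N s o))) / 2 ^ N.card ≤ ent (cube P) G :=
  K2 hG.fm N

/-- **(K3)** -/
theorem K3S {I : Type*} [Fintype I] {B : I → Set P} (hB : ∀ i j, i ≠ j → Disjoint (B i) (B j))
    {G : (P → Bool) → A} (hG : IsWin G) : ∑ i, infoS (B i) G ≤ ent (cube P) G := by
  classical
  obtain ⟨W, hW⟩ := hG.exists_dep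
  refine K3 (fun i x => x ∈ B i) (fun i j x hi hj => ?_) hW
  by_contra hne
  exact (Set.disjoint_left.1 (hB i j hne)) hi hj

end HypF
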