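import Pool.Agent.Lib.HypF.NearB
import Pool.Agent.Lib.HypF.MidWin
import Pool.Agent.Lib.HypF.Window
import Pool.Agent.Lib.HypF.Gap
import Pool.Agent.Lib.HypVec.Transport

/-!
# H2 / HypF: THEOREM F on the deterministic forest (MP_e30c56_F.md, section 7)
-/

open MeasureTheory
open scoped ENNReal

namespace HypF

open HypVec
open Pool.Agent.HypEnt (ent ov rs FM real_comp real_fst sum_real)
open Pool.Agent.HypVec (cube perm_preserving)

section Law

variable {R : ℕ} {V : Type} [Fintype V] [DecidableEq V]

/-- The joint law of the values at the two ends of the edge `i`. -/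
noncomputable def law2 (i : Fin 3) (G : Mk R → V) (a b : V) : ℝ :=
  (cube (Bt R)).real ((fun o => (G o, G (re i o))) ⁻¹' {(a, b)})

omit [Fintype V] [DecidableEq V] in
theorem fm_of_isWin {G : Mk R → V} (hG : IsWin G) : FM G := by
  let _ : MeasurableSpace V := ⊤
  exact fun a => hG.measurable (MeasurableSet.singleton a)

omit [Fintype V] [DecidableEq V] in
theorem fm_re {G : Mk R → V} (hG : FM G) (i : Fin 3) : FM (fun o => G (re i o)) :=
  fun a => (re_preserving R i).measurable (hG a)

omit [DecidableEq V] in
theorem law2_symm {i : Fin 3} {G : Mk R → V} (hG : FM G) (a b : V) :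
    law2 i G a b = law2 i G b a := by
  unfold law2
  rw [← (re_preserving R i).measureReal_preimage ((hG.prodMk (fm_re hG i)) (b, a)).nullMeasurableSet]
  congr 1
  ext o
  simp only [Set.mem_preimage, Set.mem_singleton_iff, Prod.mk.injEq, re_re]
  tauto

omit [DecidableEq V] in
theorem law2_mem {i : Fin 3} {G : Mk R → V} (hG : FM G) : law2 i G ∈ SymProb V := by
  refine ⟨fun a b => measureReal_nonneg, law2_symm hG, ?_⟩
  have := sum_real (cube (Bt R)) (hG.prodMk (fm_re hG i))
  rw [Fintype.sum_prod_type] at this
  exact this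

omit [DecidableEq V] in
theorem ent_left {C : Type*} [Fintype C] [DecidableEq C] (i : Fin 3) {G : Mk R → V} (hG : FM G)
    (φ : V → C) : ent (cube (Bt R)) (fun o => φ (G o)) =
      ∑ c, Real.negMulLog (∑ a with φ a = c, ∑ b, law2 i G a b) := by
  unfold ent
  refine Finset.sum_congr rfl fun c _ => ?_
  congr 1
  rw [real_comp (cube (Bt R)) hG φ c]
  refine Finset.sum_congr rfl fun a _ => ?_
  rw [real_fst (cube (Bt R)) hG (fm_re hG i) a]
  rfl

omit [DecidableEq V] in
theorem ent_both {C : Type*} [Fintype C] [DecidableEq C] (i : Fin 3) {G : Mk R → V} (hG : FM G)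
    (φ : V → C) : ent (cube (Bt R)) (fun o => (φ (G o), φ (G (o ∘ reE R i)))) =
      ∑ c, ∑ c', Real.negMulLog (∑ a with φ a = c, ∑ b with φ b = c', law2 i G a b) := by
  unfold ent
  rw [Fintype.sum_prod_type]
  refine Finset.sum_congr rfl fun c _ => Finset.sum_congr rfl fun c' _ => ?_
  congr 1
  have h1 := real_comp (cube (Bt R)) (hG.prodMk (fm_re hG i))
    (fun p : V × V => (φ p.1, φ p.2)) (c, c')
  have h2 : (fun o : Mk R => (φ (G o), φ (G (o ∘ reE R i)))) =
      fun o => (fun p : V × V => (φ p.1, φ p.2)) (G o, G (re i o)) := rfl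
  rw [h2, h1]
  rw [show (Finset.univ.filter fun p : V × V => (φ p.1, φ p.2) = (c, c')) =
    (Finset.univ.filter fun a : V => φ a = c) ×ˢ (Finset.univ.filter fun b : V => φ b = c') from ?_]
  · rw [Finset.sum_product]
    rfl
  · ext p
    simp [Prod.ext_iff]

end Law

/-- **Theorem F**, quantitative form: if the entropy inequality (*) holds for the finite graph
`adj` on `V` then for all large `R` the forest on `Y K × Mk R` has no Borel homomorphism to it. -/
theorem no_hom (K : Keys) {V : Type} [Fintype V] [DecidableEq V] [MeasurableSpace V]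
    [MeasurableSingletonClass V] (adj : V → V → Prop) {T : Type*} [Fintype T] {C : T → Type*}
    [∀ t, Fintype (C t)] [∀ t, DecidableEq (C t)] (φ : ∀ t, V → C t) (m : T → ℝ)
    (hm : ∀ t, 0 ≤ m t)
    (h : ∀ q ∈ SymProb V, (∀ a b, ¬ adj a b → q a b = 0) → 0 < entFun φ m q) :
    ∃ R0 : ℕ, ∀ R, R0 ≤ R → ∀ f : Y K × Mk R → V, Measurable f →
      ¬ ∀ z i, adj (f z) (f ((ySys K R).δ i z)) := by
  classical
  obtain ⟨e0, he0, hgap⟩ := exists_gap adj φ m h
  obtain ⟨R0, hR0⟩ := exists_pow_lt_of_lt_one (show 0 < e0 / 2 by positivity)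
    (show (1 / 2 : ℝ) < 1 by norm_num)
  refine ⟨R0, fun R hR f hf hadj => ?_⟩
  have hRe : (1 / 2 : ℝ) ^ R ≤ e0 / 2 :=
    (pow_le_pow_of_le_one (by norm_num) (by norm_num) hR).trans hR0.le
  obtain ⟨x0, -, -⟩ := no_choiceY K (c := fun _ => 0) measurable_const
  have hne : Nonempty V := ⟨f (x0, fun _ => false)⟩
  let v0 : V := f (x0, fun _ => false)
  -- extension to all configurations
  let f' : Conf × Mk R → V := fun p => if hp : p.1 ∈ Y K then f (⟨p.1, hp⟩, p.2) else v0
  have hf' : Measurable f' := by
    have h0 : Measurable fun p : {p : Conf × Mk R | p.1 ∈ Y K} =>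
        f (⟨p.1.1, p.2⟩, p.1.2) := by
      refine hf.comp (Measurable.prodMk ?_ (measurable_snd.comp measurable_subtype_coe))
      exact (measurable_fst.comp measurable_subtype_coe).subtype_mk
    exact Measurable.dite h0 (measurable_const (a := v0)) (measurable_fst (measurableSet_Y K))
  set N : Finset (Bt R) := nearB R with hN
  set cN : ℝ := 2 ^ N.card with hcN
  have hcN0 : 0 < cN := by positivity
  have hcard : (Fintype.card (N → Bool) : ℝ) = cN := by
    simp [hcN]
  -- the windows
  set ε : ℝ := e0 / (4 * cN) with hε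
  have hε0 : 0 < ε := by positivity
  obtain ⟨g, n, hg, hn, hgn⟩ := exists_windows (cube (Bt R)) f' hf'
    (ε := ENNReal.ofReal ε) (ENNReal.ofReal_pos.2 hε0)
  -- the charge
  let Q : ℕ → (N → Bool) → Fin 3 → ℝ := fun k s i =>
    ∑ t, m t * (infoS (br R i) (fun o => φ t (g k (ov N s o))) -
      (1 / 3) * ent (cube (Bt R)) (fun o => φ t (g k (ov N s o))))
  have hQ : ∀ s i, Measurable fun y : Conf => Q (n y) s i := fun s i =>
    (measurable_from_top (f := fun k => Q k s i)).comp hn
  have hwin : ∀ (k : ℕ) (s : N → Bool) (t : T), IsWin (fun o => φ t (g k (ov N s o))) := by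
    intro k s t
    obtain ⟨W0, hW0⟩ := hg k
    refine ⟨W0, fun o o' ho => ?_⟩
    simp only
    rw [hW0 (ov N s o) (ov N s o') fun b hb => ?_]
    by_cases hbN : b ∈ N
    · rw [Pool.Agent.HypEnt.ov_mem _ _ hbN, Pool.Agent.HypEnt.ov_mem _ _ hbN]
    · rw [Pool.Agent.HypEnt.ov_notMem _ _ hbN, Pool.Agent.HypEnt.ov_notMem _ _ hbN, ho b hb]
  -- out
  have hout : ∀ y : Conf, ∑ i, ∑ s : N → Bool, Q (n y) s i ≤ 0 := by
    intro y
    rw [Finset.sum_comm]
    refine Finset.sum_nonpos fun s _ => ?_
    show ∑ i, ∑ t, _ ≤ _
    rw [Finset.sum_comm]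
    refine Finset.sum_nonpos fun t _ => ?_
    rw [← Finset.mul_sum]
    refine mul_nonpos_of_nonneg_of_nonpos (hm t) ?_
    rw [Finset.sum_sub_distrib, Finset.sum_const, Finset.card_univ, Fintype.card_fin]
    have := K3S (fun i j hij => br_disjoint (R := R) i j hij) (hwin (n y) s t)
    simp only [nsmul_eq_mul]
    push_cast
    linarith
  -- in
  have hin : ∀ x ∈ Y K, ∀ i, 0 < ∑ s : N → Bool, Q (n (src i x s)) s i := by
    intro x hx i
    let G : Mk R → V := fun o => g (n (src i x (rs N o))) o
    have hGov : ∀ s o, G (ov N s o) = g (n (src i x s)) (ov N s o) := by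
      intro s o
      show g (n (src i x (rs N (ov N s o)))) (ov N s o) = _
      rw [rs_ov]
    have hGwin : IsWin G := by
      choose W0 hW0 using hg
      refine ⟨N ∪ Finset.univ.biUnion fun s : N → Bool => W0 (n (src i x s)), fun o o' ho => ?_⟩
      have h1 : rs N o = rs N o' := by
        rw [Pool.Agent.HypEnt.rs_eq_iff]
        exact fun b hb => ho b (Finset.mem_union_left _ hb)
      show g (n (src i x (rs N o))) o = g (n (src i x (rs N o'))) o'
      rw [← h1]
      exact hW0 _ o o' fun b hb => ho b (Finset.mem_union_right _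
        (Finset.mem_biUnion.2 ⟨rs N o, Finset.mem_univ _, hb⟩))
    have hGfm : FM G := fm_of_isWin hGwin
    -- the law of the two ends is almost carried by the edges
    have hq : 0 < entFun φ m (law2 i G) := by
      apply hgap _ (law2_mem hGfm)
      have hbadm : MeasurableSet {o : Mk R | f' (src i x (rs N o), o) ≠ G o} := by
        have h1 : Measurable fun o : Mk R => f' (src i x (rs N o), o) := by
          have h2 : Measurable fun o : Mk R => src i x (rs N o) := by
            have h3 : Measurable (fun s : N → Bool => src i x s) := measurable_of_finite _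
            exact h3.comp (measurable_pi_lambda _ fun b => measurable_pi_apply _)
          exact hf'.comp (h2.prodMk measurable_id)
        exact (measurableSet_eq_fun h1 hGwin.measurable).compl
      set bad : Set (Mk R) := {o | f' (src i x (rs N o), o) ≠ G o} with hbad
      have hbadμ : (cube (Bt R)).real bad ≤ cN * ε := by
        have h1 : bad ⊆ ⋃ s ∈ (Finset.univ : Finset (N → Bool)),
            {o : Mk R | f' (src i x s, o) ≠ g (n (src i x s)) o} := by
          intro o ho
          simp only [Finset.mem_univ, Set.iUnion_true, Set.mem_iUnion]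
          exact ⟨rs N o, ho⟩
        calc (cube (Bt R)).real bad ≤ (cube (Bt R)).real (⋃ s ∈ (Finset.univ : Finset (N → Bool)),
            {o : Mk R | f' (src i x s, o) ≠ g (n (src i x s)) o}) := measureReal_mono h1 (measure_ne_top _ _)
          _ ≤ ∑ s : N → Bool, (cube (Bt R)).real
            {o : Mk R | f' (src i x s, o) ≠ g (n (src i x s)) o} :=
              measureReal_biUnion_finset_le _ _
          _ ≤ ∑ _s : N → Bool, ε := by
              refine Finset.sum_le_sum fun s _ => ?_
              exact ENNReal.toReal_le_of_le_ofReal hε0.le (hgn (src i x s))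
          _ = cN * ε := by
              rw [Finset.sum_const, Finset.card_univ, nsmul_eq_mul, hcard]
      have hbad2 : (cube (Bt R)).real (re i ⁻¹' bad) ≤ cN * ε := by
        rw [(re_preserving R i).measureReal_preimage hbadm.nullMeasurableSet]
        exact hbadμ
      have hsub : {o : Mk R | ¬ adj (G o) (G (re i o))} ⊆ (bad ∪ re i ⁻¹' bad) ∪ confl R i := by
        intro o ho
        by_contra hcon
        simp only [Set.mem_union, not_or, Set.mem_preimage] at hcon
        obtain ⟨⟨h1, h2⟩, h3⟩ := hcon
        have h1' : f' (src i x (rs N o), o) = G o := not_not.1 h1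
        have h2' : f' (src i x (rs N (re i o)), re i o) = G (re i o) := not_not.1 h2
        apply ho
        rw [← h1', ← h2']
        have h4 := hadj (⟨src i x (rs N o), src_mem_Y i hx _⟩, o) i
        rw [ySys_src K i hx o h3] at h4
        have e1 : f' (src i x (rs N o), o) = f (⟨src i x (rs N o), src_mem_Y i hx _⟩, o) :=
          dif_pos (src_mem_Y i hx _)
        have e2 : f' (src i x (rs N (re i o)), re i o) =
            f (⟨src i x (rs N (re i o)), src_mem_Y i hx _⟩, re i o) :=
          dif_pos (src_mem_Y i hx _)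
        rw [e1, e2]
        exact h4
      have hsum : (∑ a, ∑ b with ¬ adj a b, law2 i G a b) =
          (cube (Bt R)).real {o : Mk R | ¬ adj (G o) (G (re i o))} := by
        have hZ := hGfm.prodMk (fm_re hGfm i)
        have h1 : {o : Mk R | ¬ adj (G o) (G (re i o))} =
            ⋃ p ∈ (Finset.univ.filter fun p : V × V => ¬ adj p.1 p.2),
              (fun o => (G o, G (re i o))) ⁻¹' {p} := by
          ext o
          simp
        rw [h1, measureReal_biUnion_finset]
        · rw [Finset.sum_filter, Fintype.sum_prod_type]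
          refine Finset.sum_congr rfl fun a _ => ?_
          rw [Finset.sum_filter]
          rfl
        · intro p _ p' _ hpp
          exact Disjoint.preimage _ (by simpa using hpp)
        · intro p _
          exact hZ p
      rw [hsum]
      calc (cube (Bt R)).real {o : Mk R | ¬ adj (G o) (G (re i o))}
          ≤ (cube (Bt R)).real ((bad ∪ re i ⁻¹' bad) ∪ confl R i) := measureReal_mono hsub (measure_ne_top _ _)
        _ ≤ (cube (Bt R)).real (bad ∪ re i ⁻¹' bad) + (cube (Bt R)).real (confl R i) :=
            measureReal_union_le _ _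
        _ ≤ ((cube (Bt R)).real bad + (cube (Bt R)).real (re i ⁻¹' bad)) +
            (cube (Bt R)).real (confl R i) := by
            gcongr
            exact measureReal_union_le _ _
        _ ≤ (cN * ε + cN * ε) + e0 / 2 := by
            rw [real_confl]
            gcongr
        _ = e0 := by
            rw [hε]
            field_simp
            ring
    -- (K1) and (K2)
    have hkey : ∀ t, (1 / 6) * (4 * ent (cube (Bt R)) (fun o => φ t (G o)) -
        3 * ent (cube (Bt R)) (fun o => (φ t (G o), φ t (G (o ∘ reE R i))))) ≤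
        (∑ s : N → Bool, (infoS (br R i) (fun o => φ t (g (n (src i x s)) (ov N s o))) -
          (1 / 3) * ent (cube (Bt R)) (fun o => φ t (g (n (src i x s)) (ov N s o))))) / cN := by
      intro t
      have hw : IsWin (fun o => φ t (G o)) := hGwin.comp _
      have k1 := K1S (reE R i) (fun b => reB_reB R i b) (B := br R i) (reB_mem_br i) N
        (fun b hb => notMem_br_of_near i hb) hw
      have k2 := K2S N hw
      simp only [hGov] at k1 k2
      rw [Finset.sum_sub_distrib, ← Finset.mul_sum, sub_div, mul_div_assoc]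
      rw [← hcN] at k1 k2
      linarith
    have hfin : (1 / 6) * entFun φ m (law2 i G) ≤
        (∑ s : N → Bool, Q (n (src i x s)) s i) / cN := by
      have e1 : entFun φ m (law2 i G) = ∑ t, m t * (4 * ent (cube (Bt R)) (fun o => φ t (G o)) -
          3 * ent (cube (Bt R)) (fun o => (φ t (G o), φ t (G (o ∘ reE R i))))) := by
        unfold entFun
        refine Finset.sum_congr rfl fun t _ => ?_
        rw [ent_left i hGfm (φ t), ent_both i hGfm (φ t)]
      have e2 : (∑ s : N → Bool, Q (n (src i x s)) s i) / cN = ∑ t, m t *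
          ((∑ s : N → Bool, (infoS (br R i) (fun o => φ t (g (n (src i x s)) (ov N s o))) -
          (1 / 3) * ent (cube (Bt R)) (fun o => φ t (g (n (src i x s)) (ov N s o))))) / cN) := by
        show (∑ s : N → Bool, ∑ t, _) / cN = _
        rw [Finset.sum_comm, Finset.sum_div]
        refine Finset.sum_congr rfl fun t _ => ?_
        rw [← Finset.mul_sum, mul_div_assoc]
      rw [e1, e2, Finset.mul_sum]
      refine Finset.sum_le_sum fun t _ => ?_
      calc (1 / 6 : ℝ) * (m t * (4 * ent (cube (Bt R)) (fun o => φ t (G o)) -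
          3 * ent (cube (Bt R)) (fun o => (φ t (G o), φ t (G (o ∘ reE R i)))))) =
          m t * ((1 / 6) * (4 * ent (cube (Bt R)) (fun o => φ t (G o)) -
          3 * ent (cube (Bt R)) (fun o => (φ t (G o), φ t (G (o ∘ reE R i)))))) := by ring
        _ ≤ _ := mul_le_mul_of_nonneg_left (hkey t) (hm t)
    have h6 : 0 < (∑ s : N → Bool, Q (n (src i x s)) s i) / cN :=
      lt_of_lt_of_le (by positivity) hfin
    have := mul_pos h6 hcN0
    rwa [div_mul_cancel₀ _ hcN0.ne'] at this
  -- the flow
  have hdiv : Div fun x => ∑ i, ∑ s : N → Bool, (Q (n (src i x s)) s i - Q (n x) s i) :=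
    Div.sum _ fun i _ => Div.sum _ fun s _ => Div.act (hQ s i) (hws i s).reverse
  obtain ⟨x, hx, hle⟩ := hdiv.exists_nonpos K
  have h1 := hout x
  have h2 : 0 < ∑ i, ∑ s : N → Bool, Q (n (src i x s)) s i :=
    Finset.sum_pos (fun i _ => hin x hx i) Finset.univ_nonempty
  simp only [Finset.sum_sub_distrib] at hle
  linarith

end HypF
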