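import Pool.Agent.Lib.HypF.MidCore
import Pool.Agent.Lib.HypVec.HH

/-!
# H2 / HypF: (K1), (K2), (K3) of the page MP_e30c56_F.md, section 6

`G : (ι → Bool) → A` depends on finitely many bits (`Dep G W`, `W` a window). `info B G` = amount of information
(in the sense of Shapley values) on `G` contained in the bits `x` with `B x`; any window gives the same number.
-/

namespace HypF

open MeasureTheory
open Pool.Agent.HypEnt
open Pool.Agent.HypVec (cube flipOn flipOn_preserving perm_preserving)

variable {ι : Type*} [DecidableEq ι] {A C : Type*} [Fintype A] [Fintype C]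

/-- `G` depends only on the coordinates in `W` -/
def Dep (G : (ι → Bool) → A) (W : Finset ι) : Prop :=
  ∀ o o' : ι → Bool, (∀ x ∈ W, o x = o' x) → G o = G o'

theorem Dep.mono {G : (ι → Bool) → A} {W W' : Finset ι} (h : Dep G W) (hW : W ⊆ W') : Dep G W' :=
  fun o o' ho => h o o' fun x hx => ho x (hW hx)

theorem Dep.fm {G : (ι → Bool) → A} {W : Finset ι} (h : Dep G W) : FM G := by
  have h1 : G = fun o => (fun s : W → Bool => G (ov W s fun _ => false)) (rs W o) := by
    funext o
    refine h o _ fun x hx => ?_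
    rw [ov_mem _ _ hx]
    rfl
  rw [h1]
  exact FM.comp (fm_rs W) (fun s : W → Bool => G (ov W s fun _ => false))

theorem Dep.comp {G : (ι → Bool) → A} {W : Finset ι} (h : Dep G W) (f : A → C) :
    Dep (fun o => f (G o)) W := fun o o' ho => by
  show f (G o) = f (G o')
  rw [h o o' ho]

theorem Dep.pair {G : (ι → Bool) → A} {G' : (ι → Bool) → C} {W : Finset ι} (h : Dep G W)
    (h' : Dep G' W) : Dep (fun o => (G o, G' o)) W := fun o o' ho => by
  show (G o, G' o) = (G o', G' o')
  rw [h o o' ho, h' o o' ho]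

theorem Dep.perm {G : (ι → Bool) → A} {W : Finset ι} (h : Dep G W) (e : ι ≃ ι) :
    Dep (fun o => G (o ∘ e)) (W.map e.toEmbedding) := fun _ _ ho =>
  h _ _ fun x hx => ho (e x) (Finset.mem_map_of_mem _ hx)

/-- fixing the bits in `N` -/
theorem Dep.ov {G : (ι → Bool) → A} {W : Finset ι} (h : Dep G W) (N : Finset ι)
    (s : N → Bool) : Dep (fun o => G (Pool.Agent.HypEnt.ov N s o)) (W \ N) := fun o o' ho => by
  refine h _ _ fun x hx => ?_
  by_cases hN : x ∈ N
  · rw [ov_mem _ _ hN, ov_mem _ _ hN]
  · rw [ov_notMem _ _ hN, ov_notMem _ _ hN]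
    exact ho x (Finset.mem_sdiff.2 ⟨hx, hN⟩)

theorem Dep.null {G : (ι → Bool) → A} {W : Finset ι} (h : Dep G W) {z : ι} (hz : z ∉ W)
    (R : Finset ι) : hh G (insert z R) = hh G R := by
  by_cases hR : z ∈ R
  · rw [Finset.insert_eq_of_mem hR]
  · refine hh_null h.fm hR fun o => h _ _ fun x hx => ?_
    have hxz : x ≠ z := fun hh => hz (hh ▸ hx)
    simp [flipOn, hxz]

theorem Dep.hh_zero {G : (ι → Bool) → A} {W : Finset ι} (h : Dep G W) : hh G W = 0 :=
  hh_eq_zero h.fm h

theorem hh_insert_le' {G : (ι → Bool) → A} (hG : FM G) (R : Finset ι) (x : ι) :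
    hh G (insert x R) ≤ hh G R := by
  by_cases hR : x ∈ R
  · rw [Finset.insert_eq_of_mem hR]
  · exact hh_insert_le hG hR

theorem hh_le_empty {G : (ι → Bool) → A} (hG : FM G) (R : Finset ι) : hh G R ≤ hh G ∅ := by
  induction R using Finset.induction_on with
  | empty => exact le_refl _
  | insert x R _ ih => exact (hh_insert_le' hG R x).trans ih

/-- information on `G` in the bits `x` with `B x` -/
noncomputable def info (B : ι → Prop) [DecidablePred B] (G : (ι → Bool) → A) : ℝ := by
  classical
  exact if h : ∃ W, Dep G W then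
    ∑ x ∈ h.choose.filter B, shv (fun R => - hh G R) h.choose x else 0

theorem info_eq (B : ι → Prop) [DecidablePred B] {G : (ι → Bool) → A} {W : Finset ι}
    (h : Dep G W) : info B G = ∑ x ∈ W.filter B, shv (fun R => - hh G R) W x := by
  have hex : ∃ W, Dep G W := ⟨W, h⟩
  rw [info, dif_pos hex]
  refine winsum_eq B (v := fun R => - hh G R) (fun z hz R => ?_) fun z hz R => ?_
  · show - hh G (insert z R) = - hh G R
    rw [h.null hz R]
  · show - hh G (insert z R) = - hh G R
    rw [hex.choose_spec.null hz R]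

/-- **(K2)** -/
theorem K2 {G : (ι → Bool) → A} (hG : FM G) (N : Finset ι) :
    (∑ s : N → Bool, ent (cube ι) (fun o => G (ov N s o))) / 2 ^ N.card ≤ ent (cube ι) G := by
  have h1 := hh_union hG (N := N) (R := ∅) (Finset.disjoint_empty_right N)
  have h2 : ∀ s : N → Bool, hh (fun o => G (ov N s o)) ∅ = ent (cube ι) (fun o => G (ov N s o)) :=
    fun s => hh_empty fun a => measurable_ov N s (hG a)
  simp only [h2, Finset.union_empty] at h1
  rw [← h1, ← hh_empty hG]
  exact hh_le_empty hG N

/-- **(K3)** -/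
theorem K3 {I : Type*} [Fintype I] (B : I → ι → Prop) [∀ i, DecidablePred (B i)]
    (hB : ∀ i j x, B i x → B j x → i = j) {G : (ι → Bool) → A} {W : Finset ι} (h : Dep G W) :
    ∑ i, info (B i) G ≤ ent (cube ι) G := by
  have h1 := core_K3 B hB W (hh G) (hh_insert_le' h.fm) h.hh_zero
  rw [hh_empty h.fm] at h1
  refine le_trans (le_of_eq (Finset.sum_congr rfl fun i _ => ?_)) h1
  exact info_eq (B i) h

/-- **(K1)** -/
theorem K1 (e : ι ≃ ι) (he : ∀ x, e (e x) = x) (B : ι → Prop) [DecidablePred B]
    (hB : ∀ x, B (e x) ↔ ¬ B x) (N : Finset ι) (hN : ∀ x ∈ N, ¬ B x) {G : (ι → Bool) → A}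
    {W : Finset ι} (h : Dep G W) :
    (2 * ent (cube ι) G - ent (cube ι) (fun o => (G o, G (o ∘ e)))) / 2
      ≤ (∑ s : N → Bool, info B (fun o => G (ov N s o))) / 2 ^ N.card := by
  have hee : e.toEmbedding.trans e.toEmbedding = Function.Embedding.refl ι := by
    ext x
    simp [he]
  have hmm : ∀ R : Finset ι, (R.map e.toEmbedding).map e.toEmbedding = R := fun R => by
    rw [Finset.map_map, hee, Finset.map_refl]
  -- a window for everything
  set V : Finset ι := W ∪ W.map e.toEmbedding with hV
  have hVe : V.map e.toEmbedding = V := by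
    rw [hV, Finset.map_union, hmm, Finset.union_comm]
  have d1 : Dep G V := h.mono Finset.subset_union_left
  have d2 : Dep (fun o => G (o ∘ e)) V := (h.perm e).mono Finset.subset_union_right
  have d3 : Dep (fun o => (G o, G (o ∘ e))) V := d1.pair d2
  have hcore := core_K1 e B hB N hN V hVe (hh G) (hh fun o => G (o ∘ e))
    (hh fun o => (G o, G (o ∘ e)))
    (fun R x u hx hu hxu => hh_submod d1.fm hx hu hxu)
    (fun R x hx => hh_pair_sub d1.fm d2.fm hx)
    (fun R x hx => by
      have h1 := hh_pair_sub d2.fm d1.fm hx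
      have hsw : ∀ R : Finset ι, hh (fun o => (G (o ∘ e), G o)) R
          = hh (fun o => (G o, G (o ∘ e))) R := fun R => by
        unfold hh
        congr 1
        refine ent_congr _ ((d2.fm.prodMk d1.fm).prodMk (fm_rs _))
          ((d1.fm.prodMk d2.fm).prodMk (fm_rs _)) fun o o' => ?_
        simp only [Prod.mk.injEq]
        tauto
      rw [hsw, hsw] at h1
      exact h1)
    (fun R => by
      have := hh_comp e d1.fm (R.map e.toEmbedding)
      rw [hmm] at this
      exact this)
    d1.hh_zero d2.hh_zero d3.hh_zero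
  have he1 : ent (cube ι) (fun o => G (o ∘ e)) = ent (cube ι) G :=
    ent_comp_preserving (perm_preserving e) d1.fm
  rw [hh_empty d1.fm, hh_empty d2.fm, hh_empty d3.fm, he1] at hcore
  refine le_trans (le_of_eq (by ring)) (hcore.trans (le_of_eq ?_))
  -- the average
  have hd : ∀ s : N → Bool, Dep (fun o => G (ov N s o)) (V \ N) := fun s => d1.ov N s
  have hi : ∀ s : N → Bool, info B (fun o => G (ov N s o))
      = ∑ x ∈ (V \ N).filter B, shv (fun R => - hh (fun o => G (ov N s o)) R) (V \ N) x :=
    fun s => info_eq B (hd s)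
  simp only [hi]
  rw [Finset.sum_comm, Finset.sum_div]
  refine Finset.sum_congr rfl fun x _ => ?_
  rw [← shv_sum, div_eq_inv_mul, ← shv_smul]
  refine shv_congr (fun R hR => ?_) x
  have hdis : Disjoint N R := by
    rw [Finset.disjoint_right]
    intro y hy
    exact (Finset.mem_sdiff.1 (hR hy)).2
  rw [Finset.union_comm, hh_union d1.fm hdis, Finset.sum_neg_distrib, div_eq_inv_mul]
  ring

end HypF
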