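import Pool.Agent.Lib.HypF.Shapley

/-!
# H2 / HypF: the combinatorial core of (K1) (page MP_e30c56_F.md, section 6)

`h` = conditional entropy of `G` given the coordinates in a finite set, `h'` the same for `G' = G ∘ e`,
`h2` the same for the pair `(G, G')`.
-/

namespace HypF

variable {P : Type*} [DecidableEq P]

/-- marginals grow when a set `N` is added -/
theorem marginal_union {h : Finset P → ℝ} (N : Finset P)
    (hsub : ∀ (R : Finset P) (x u : P), x ∉ R → u ∉ R → x ≠ u →
      h R - h (insert x R) ≤ h (insert u R) - h (insert x (insert u R)))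
    (R : Finset P) (x : P) (hxR : x ∉ R) (hxN : x ∉ N) :
    h R - h (insert x R) ≤ h (R ∪ N) - h (insert x (R ∪ N)) := by
  induction N using Finset.induction_on with
  | empty => simp
  | insert u N hu ih =>
    rw [Finset.mem_insert, not_or] at hxN
    have ih' := ih hxN.2
    by_cases huR : u ∈ R
    · have : R ∪ insert u N = R ∪ N := by
        ext y
        simp only [Finset.mem_union, Finset.mem_insert]
        constructor
        · rintro (h1 | h1 | h1)
          · exact Or.inl h1
          · exact Or.inl (h1 ▸ huR)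
          · exact Or.inr h1
        · rintro (h1 | h1)
          · exact Or.inl h1
          · exact Or.inr (Or.inr h1)
      rw [this]
      exact ih'
    · have h1 : u ∉ R ∪ N := by simp [huR, hu]
      have h2 : x ∉ R ∪ N := by simp [hxR, hxN.2]
      have := hsub (R ∪ N) x u h2 h1 hxN.1
      rw [Finset.union_insert]
      linarith

/-- the core of (K1) -/
theorem core_K1 (e : Equiv.Perm P) (B : P → Prop) [DecidablePred B]
    (hB : ∀ x, B (e x) ↔ ¬ B x) (N : Finset P) (hN : ∀ x ∈ N, ¬ B x)
    (W : Finset P) (hW : W.map e.toEmbedding = W)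
    (h h' h2 : Finset P → ℝ)
    (hsub : ∀ (R : Finset P) (x u : P), x ∉ R → u ∉ R → x ≠ u →
      h R - h (insert x R) ≤ h (insert u R) - h (insert x (insert u R)))
    (h1 : ∀ (R : Finset P) (x : P), x ∉ R → h R - h (insert x R) ≤ h2 R - h2 (insert x R))
    (h1' : ∀ (R : Finset P) (x : P), x ∉ R → h' R - h' (insert x R) ≤ h2 R - h2 (insert x R))
    (he : ∀ R : Finset P, h' R = h (R.map e.toEmbedding))
    (hw : h W = 0) (hw' : h' W = 0) (hw2 : h2 W = 0) :
    (h ∅ + h' ∅ - h2 ∅) / 2
      ≤ ∑ x ∈ (W \ N).filter B, shv (fun R => - h (R ∪ N)) (W \ N) x := by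
  -- the three sums over the window
  have s1 := sum_shv (fun R => - h R) W
  have s1' := sum_shv (fun R => - h' R) W
  have s2 := sum_shv (fun R => - h2 R) W
  simp only [hw, hw', hw2] at s1 s1' s2
  have m1 : ∀ x, shv (fun R => - h R) W x ≤ shv (fun R => - h2 R) W x := fun x =>
    shv_mono fun R hR => by
      have hx : x ∉ R := fun hh => (Finset.mem_erase.1 (hR hh)).1 rfl
      have := h1 R x hx
      linarith
  have m1' : ∀ x, shv (fun R => - h' R) W x ≤ shv (fun R => - h2 R) W x := fun x =>
    shv_mono fun R hR => by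
      have hx : x ∉ R := fun hh => (Finset.mem_erase.1 (hR hh)).1 rfl
      have := h1' R x hx
      linarith
  have sym : ∀ x, shv (fun R => - h' R) W x = shv (fun R => - h R) W (e x) := fun x => by
    have := shv_map e.toEmbedding (fun R => - h R) W x
    rw [hW] at this
    rw [show (fun R => - h' R) = fun R : Finset P => - h (R.map e.toEmbedding) from
      funext fun R => by rw [he R]]
    exact this
  have split : ∑ x ∈ W, (shv (fun R => - h R) W x + shv (fun R => - h' R) W x
        - shv (fun R => - h2 R) W x)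
      ≤ ∑ x ∈ W.filter B, shv (fun R => - h R) W x
        + ∑ x ∈ W.filter (fun x => ¬ B x), shv (fun R => - h' R) W x := by
    rw [← Finset.sum_filter_add_sum_filter_not W B]
    refine add_le_add (Finset.sum_le_sum fun x _ => ?_) (Finset.sum_le_sum fun x _ => ?_)
    · have := m1' x; linarith
    · have := m1 x; linarith
  have refl0 : ∑ x ∈ W.filter (fun x => ¬ B x), shv (fun R => - h' R) W x
      = ∑ x ∈ W.filter B, shv (fun R => - h R) W x := by
    refine Finset.sum_bij (fun x _ => e x) ?_ ?_ ?_ ?_
    · intro x hx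
      rw [Finset.mem_filter] at hx ⊢
      refine ⟨?_, (hB x).2 hx.2⟩
      rw [← hW]
      exact Finset.mem_map_of_mem _ hx.1
    · intro x _ y _ hxy
      exact e.injective hxy
    · intro y hy
      rw [Finset.mem_filter] at hy
      have hy1 := hy.1
      rw [← hW, Finset.mem_map] at hy1
      obtain ⟨x, hx, hxy⟩ := hy1
      have hxy' : e x = y := hxy
      refine ⟨x, ?_, hxy'⟩
      rw [Finset.mem_filter]
      exact ⟨hx, (hB x).1 (hxy' ▸ hy.2)⟩
    · intro x _
      exact sym x
  rw [Finset.sum_sub_distrib, Finset.sum_add_distrib, s1, s1', s2, refl0] at split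
  -- pass to the near bits
  have near : ∀ x ∈ W.filter B, shv (fun R => - h R) W x
      ≤ shv (fun R => - h (R ∪ N)) (W \ N) x := fun x hx => by
    rw [Finset.mem_filter] at hx
    have hxN : x ∉ N := fun hh => hN x hh hx.2
    have st1 : shv (fun R => - h R) W x ≤ shv (fun R => - h (R ∪ N)) W x :=
      shv_mono fun R hR => by
        have hxR : x ∉ R := fun hh => (Finset.mem_erase.1 (hR hh)).1 rfl
        have := marginal_union N hsub R x hxR hxN
        rw [Finset.insert_union]
        linarith
    have st2 : shv (fun R => - h (R ∪ N)) W x = shv (fun R => - h (R ∪ N)) (W \ N) x := by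
      refine shv_of_null Finset.sdiff_subset (Finset.mem_sdiff.2 ⟨hx.1, hxN⟩) ?_
      intro z hzW hz R _
      have hzN : z ∈ N := by
        by_contra hh
        exact hz (Finset.mem_sdiff.2 ⟨hzW, hh⟩)
      have : insert z R ∪ N = R ∪ N := by
        ext y
        simp only [Finset.mem_union, Finset.mem_insert]
        constructor
        · rintro ((h1 | h1) | h1)
          · exact Or.inr (h1 ▸ hzN)
          · exact Or.inl h1
          · exact Or.inr h1
        · rintro (h1 | h1)
          · exact Or.inl (Or.inr h1)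
          · exact Or.inr h1
      simp only [this]
    exact st1.trans st2.le
  have hfil : (W \ N).filter B = W.filter B := by
    ext x
    simp only [Finset.mem_filter, Finset.mem_sdiff]
    constructor
    · rintro ⟨⟨h1, _⟩, h3⟩
      exact ⟨h1, h3⟩
    · rintro ⟨h1, h3⟩
      exact ⟨⟨h1, fun hh => hN x hh h3⟩, h3⟩
  rw [hfil]
  have fin := Finset.sum_le_sum near
  linarith

/-- larger windows give the same sums -/
theorem winsum_mono (B : P → Prop) [DecidablePred B] {v : Finset P → ℝ} {W W' : Finset P}
    (hWW : W ⊆ W') (hnull : ∀ z ∈ W', z ∉ W → ∀ R : Finset P, v (insert z R) = v R) :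
    ∑ x ∈ W'.filter B, shv v W' x = ∑ x ∈ W.filter B, shv v W x := by
  have h1 : ∑ x ∈ W.filter B, shv v W x = ∑ x ∈ W.filter B, shv v W' x :=
    Finset.sum_congr rfl fun x hx =>
      (shv_of_null hWW (Finset.mem_filter.1 hx).1 fun z hz hz' R _ => hnull z hz hz' R).symm
  rw [h1]
  refine (Finset.sum_subset (Finset.filter_subset_filter _ hWW) fun x hx hx' => ?_).symm
  rw [Finset.mem_filter] at hx
  have hxW : x ∉ W := fun hh => hx' (Finset.mem_filter.2 ⟨hh, hx.2⟩)
  exact shv_null fun R _ => hnull x hx.1 hxW R

/-- any two windows give the same sums -/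
theorem winsum_eq (B : P → Prop) [DecidablePred B] {v : Finset P → ℝ} {W W' : Finset P}
    (h : ∀ z, z ∉ W → ∀ R : Finset P, v (insert z R) = v R)
    (h' : ∀ z, z ∉ W' → ∀ R : Finset P, v (insert z R) = v R) :
    ∑ x ∈ W'.filter B, shv v W' x = ∑ x ∈ W.filter B, shv v W x := by
  rw [← winsum_mono B (v := v) (Finset.subset_union_left : W ⊆ W ∪ W') fun z _ hz R => h z hz R,
    ← winsum_mono B (v := v) (Finset.subset_union_right : W' ⊆ W ∪ W') fun z _ hz R => h' z hz R]

/-- the core of (K3) -/
theorem core_K3 {I : Type*} [Fintype I] (B : I → P → Prop) [∀ i, DecidablePred (B i)]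
    (hB : ∀ i j x, B i x → B j x → i = j) (W : Finset P) (h : Finset P → ℝ)
    (hmono : ∀ (R : Finset P) (x : P), h (insert x R) ≤ h R) (hw : h W = 0) :
    ∑ i, ∑ x ∈ W.filter (B i), shv (fun R => - h R) W x ≤ h ∅ := by
  classical
  have s1 := sum_shv (fun R => - h R) W
  simp only [hw] at s1
  have nn : ∀ x, 0 ≤ shv (fun R => - h R) W x := fun x =>
    shv_nonneg fun R _ => neg_le_neg (hmono R x)
  have hd : ((Finset.univ : Finset I) : Set I).PairwiseDisjoint (fun i => W.filter (B i)) := by
    intro i _ j _ hij
    rw [Function.onFun, Finset.disjoint_filter]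
    intro x _ h1 h2
    exact hij (hB i j x h1 h2)
  rw [← Finset.sum_biUnion hd]
  have hsub : (Finset.univ : Finset I).biUnion (fun i => W.filter (B i)) ⊆ W := by
    intro x hx
    rw [Finset.mem_biUnion] at hx
    obtain ⟨i, _, hi⟩ := hx
    exact (Finset.mem_filter.1 hi).1
  have := Finset.sum_le_sum_of_subset_of_nonneg (f := fun x => shv (fun R => - h R) W x) hsub
    (fun x _ _ => nn x)
  linarith

end HypF
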