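import Pool.Agent.Lib.HypVec.Base
import Pool.Agent.Lib.HypVec.HH

/-!
# H2 / HypF: the own bits of the root, branches, midpoints (MP_e30c56_F.md on the forest of
MP_e30c56_detforest.md)
-/

open MeasureTheory

namespace HypF

open HypVec
open Pool.Agent.HypEnt (ov rs ov_mem ov_notMem ov_self measurable_ov rs_eq_iff fm_rs)
open Pool.Agent.HypVec (cube perm_preserving)

/-- The bits of the root. -/
def nearB (R : ℕ) : Finset (Bt R) :=
  (Finset.univ : Finset (Fin 3 × Fin R)).map ⟨fun q => (rt, q), fun _ _ h => (Prod.ext_iff.1 h).2⟩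

theorem mem_nearB {R : ℕ} {b : Bt R} : b ∈ nearB R ↔ b.1 = rt := by
  simp only [nearB, Finset.mem_map, Finset.mem_univ, true_and, Function.Embedding.coeFn_mk]
  constructor
  · rintro ⟨q, rfl⟩; rfl
  · intro h
    exact ⟨b.2, Prod.ext h.symm rfl⟩

/-- The bits of the branch `i`. -/
def br (R : ℕ) (i : Fin 3) : Set (Bt R) := {b | b.1.1.head? = some i}

theorem br_disjoint {R : ℕ} (i j : Fin 3) (h : i ≠ j) : Disjoint (br R i) (br R j) := by
  rw [Set.disjoint_left]
  intro b hb hb'
  have h1 : b.1.1.head? = some i := hb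
  have h2 : b.1.1.head? = some j := hb'
  rw [h1] at h2
  exact h (Option.some.inj h2)

theorem notMem_br_of_near {R : ℕ} (i : Fin 3) {b : Bt R} (hb : b ∈ nearB R) : b ∉ br R i := by
  rw [mem_nearB] at hb
  intro h
  have h1 : b.1.1.head? = some i := h
  rw [hb] at h1
  simp [rt] at h1

theorem head_mv' (i : Fin 3) (w : W) : (mv i w).1.head? = some i ↔ ¬ w.1.head? = some i := by
  obtain ⟨w, hw⟩ := w
  cases w with
  | nil => simp [mv, mvL]
  | cons j t =>
    by_cases hj : j = i
    · subst hj
      simp only [mv, mvL, if_true, List.head?_cons, not_true, iff_false]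
      intro h
      cases t with
      | nil => simp at h
      | cons k t =>
        have h1 : j ≠ k := (List.isChain_cons_cons.1 hw).1
        simp only [List.head?_cons, Option.some.injEq] at h
        exact h1 h.symm
    · simp [mv, mvL, hj]

theorem reB_mem_br {R : ℕ} (i : Fin 3) (b : Bt R) : reB R i b ∈ br R i ↔ b ∉ br R i :=
  head_mv' i b.1

/-- Re-rooting as a permutation. -/
def reE (R : ℕ) (i : Fin 3) : Bt R ≃ Bt R where
  toFun := reB R i
  invFun := reB R i
  left_inv := reB_reB R i
  right_inv := reB_reB R i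

theorem re_eq_comp {R : ℕ} (i : Fin 3) (o : Mk R) : re i o = o ∘ reE R i := rfl

theorem re_preserving (R : ℕ) (i : Fin 3) :
    MeasurePreserving (re (R := R) i) (cube (Bt R)) (cube (Bt R)) := perm_preserving (reE R i)

/-- The half word of type `i` read from the root bits `s`. -/
def hws {R : ℕ} (i : Fin 3) (s : nearB R → Bool) : L3 :=
  hw i (List.ofFn fun k => s ⟨(rt, (i, k)), mem_nearB.2 rfl⟩)

theorem hwd_ov {R : ℕ} (i : Fin 3) (s : nearB R → Bool) (o : Mk R) :
    hwd i rt (ov (nearB R) s o) = hws i s := by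
  unfold hwd hws
  congr 2
  funext k
  exact ov_mem s o (mem_nearB.2 rfl)

theorem hwd_rt {R : ℕ} (i : Fin 3) (o : Mk R) : hwd i rt o = hws i (rs (nearB R) o) := rfl

theorem rs_ov {R : ℕ} (s : nearB R → Bool) (o : Mk R) : rs (nearB R) (ov (nearB R) s o) = s := by
  funext b
  exact ov_mem s o b.2

/-- The end point of the half edge of type `i` with root bits `s` and midpoint `x`. -/
def src {R : ℕ} (i : Fin 3) (x : Conf) (s : nearB R → Bool) : Conf := act (hws i s).reverse x

theorem src_mem_Y {K : Keys} {R : ℕ} (i : Fin 3) {x : Conf} (hx : x ∈ Y K)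
    (s : nearB R → Bool) : src i x s ∈ Y K := act_mem_Y hx _

theorem act_reverse (w : L3) (x : Conf) : act w.reverse (act w x) = x := by
  induction w generalizing x with
  | nil => rfl
  | cons i w ih =>
    rw [List.reverse_cons, act_append, act_cons, act_cons, act_nil, ih, alpha_alpha]

theorem act_reverse' (w : L3) (x : Conf) : act w (act w.reverse x) = x := by
  have := act_reverse w.reverse x
  rwa [List.reverse_reverse] at this

/-- If the two half words at the edge `i` are different then the two end points with midpoint `x`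
are neighbours. -/
theorem ySys_src (K : Keys) {R : ℕ} (i : Fin 3) {x : Conf} (hx : x ∈ Y K) (o : Mk R)
    (ho : hwd i rt o ≠ hwd i (nbr i) o) :
    (ySys K R).δ i (⟨src i x (rs (nearB R) o), src_mem_Y i hx _⟩, o) =
      (⟨src i x (rs (nearB R) (re i o)), src_mem_Y i hx _⟩, re i o) := by
  refine Prod.ext ?_ rfl
  apply Subtype.ext
  show (wact (alphaY K) (gword i o) ⟨src i x (rs (nearB R) o), src_mem_Y i hx _⟩).1 =
    src i x (rs (nearB R) (re i o))
  rw [wact_alphaY]
  unfold gword
  rw [if_neg ho, act_append]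
  have h1 : hwd i rt o = hws i (rs (nearB R) o) := rfl
  have h2 : hwd i (nbr i) o = hws i (rs (nearB R) (re i o)) := by
    rw [← hwd_rt, hwd_re, mv_rt]
  unfold src
  rw [h1, h2, act_reverse']

/-- The set of marks for which the two half words at the edge `i` coincide. -/
def confl (R : ℕ) (i : Fin 3) : Set (Mk R) := {o | hwd i rt o = hwd i (nbr i) o}

theorem measurableSet_confl (R : ℕ) (i : Fin 3) : MeasurableSet (confl R i) := by
  have h : confl R i =
      (fun (o : Mk R) => ((fun k : Fin R => o (rt, (i, k))), (fun k : Fin R => o (nbr i, (i, k))))) ⁻¹'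
      {b : (Fin R → Bool) × (Fin R → Bool) | hw i (List.ofFn b.1) = hw i (List.ofFn b.2)} := rfl
  rw [h]
  exact ((measurable_pi_lambda _ fun k => measurable_pi_apply _).prodMk
    (measurable_pi_lambda _ fun k => measurable_pi_apply _)) (Set.toFinite _).measurableSet

theorem mem_confl {R : ℕ} {i : Fin 3} {o : Mk R} :
    o ∈ confl R i ↔ ∀ k : Fin R, o (rt, (i, k)) = o (nbr i, (i, k)) := by
  unfold confl hwd
  constructor
  · intro h k
    have h1 := hw_inj i h
    have h2 := List.ofFn_injective h1
    exact congrFun h2 k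
  · intro h
    show hw i _ = hw i _
    congr 2
    funext k
    exact h k

/-- The probability of a conflict. -/
theorem real_confl (R : ℕ) (i : Fin 3) : (cube (Bt R)).real (confl R i) = (1 / 2) ^ R := by
  classical
  -- the bits of the two half words
  let a : Fin R → Bt R := fun k => (rt, (i, k))
  let b : Fin R → Bt R := fun k => (nbr i, (i, k))
  have hab : ∀ k l, a k ≠ b l := fun k l h => by
    have h1 := congrArg (fun z : Bt R => z.1.1) h
    simp [a, b, rt, nbr] at h1
  have ha : Function.Injective a := fun k l h => by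
    have h1 : (i, k) = (i, l) := (Prod.ext_iff.1 h).2
    exact (Prod.ext_iff.1 h1).2
  have hb : Function.Injective b := fun k l h => by
    have h1 : (i, k) = (i, l) := (Prod.ext_iff.1 h).2
    exact (Prod.ext_iff.1 h1).2
  let N : Finset (Bt R) := Finset.univ.map ⟨a, ha⟩ ∪ Finset.univ.map ⟨b, hb⟩
  have hN : N.card = 2 * R := by
    rw [Finset.card_union_of_disjoint]
    · simp; ring
    · rw [Finset.disjoint_left]
      intro z hz hz'
      simp only [Finset.mem_map, Finset.mem_univ, true_and, Function.Embedding.coeFn_mk] at hz hz'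
      obtain ⟨k, rfl⟩ := hz
      obtain ⟨l, h⟩ := hz'
      exact hab k l h.symm
  have hmem : ∀ z, z ∈ N ↔ (∃ k, a k = z) ∨ (∃ k, b k = z) := by
    intro z
    simp [N]
  have haN : ∀ k, a k ∈ N := fun k => (hmem _).2 (Or.inl ⟨k, rfl⟩)
  have hbN : ∀ k, b k ∈ N := fun k => (hmem _).2 (Or.inr ⟨k, rfl⟩)
  -- the pattern with both half words equal to `s`
  let pat : (Fin R → Bool) → (N → Bool) := fun s z =>
    if h : ∃ k, a k = z.1 then s (Classical.choose h) else
      if h : ∃ k, b k = z.1 then s (Classical.choose h) else false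
  have hpa : ∀ s k, pat s ⟨a k, haN k⟩ = s k := by
    intro s k
    have h : ∃ l, a l = a k := ⟨k, rfl⟩
    have h1 : pat s ⟨a k, haN k⟩ = s (Classical.choose h) := dif_pos h
    rw [h1, ha (Classical.choose_spec h)]
  have hpb : ∀ s k, pat s ⟨b k, hbN k⟩ = s k := by
    intro s k
    have h0 : ¬ ∃ l, a l = b k := by
      rintro ⟨l, hl⟩
      exact hab l k hl
    have h : ∃ l, b l = b k := ⟨k, rfl⟩
    have h1 : pat s ⟨b k, hbN k⟩ = s (Classical.choose h) := by
      show (if h : ∃ l, a l = b k then s (Classical.choose h) else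
        if h : ∃ l, b l = b k then s (Classical.choose h) else false) = _
      rw [dif_neg h0, dif_pos h]
    rw [h1, hb (Classical.choose_spec h)]
  have hpinj : Function.Injective pat := by
    intro s s' h
    funext k
    rw [← hpa s k, h, hpa]
  have hset : confl R i = ⋃ s : Fin R → Bool, rs N ⁻¹' {pat s} := by
    ext o
    rw [mem_confl]
    simp only [Set.mem_iUnion, Set.mem_preimage, Set.mem_singleton_iff]
    constructor
    · intro h
      refine ⟨fun k => o (a k), ?_⟩
      funext z
      rcases (hmem z.1).1 z.2 with ⟨k, hk⟩ | ⟨k, hk⟩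
      · have hz : z = ⟨a k, haN k⟩ := Subtype.ext hk.symm
        rw [hz]
        exact (hpa (fun k => o (a k)) k).symm
      · have hz : z = ⟨b k, hbN k⟩ := Subtype.ext hk.symm
        rw [hz]
        exact (h k).symm.trans (hpb (fun k => o (a k)) k).symm
    · rintro ⟨s, hs⟩ k
      have h1 : rs N o ⟨a k, haN k⟩ = s k := by rw [hs, hpa]
      have h2 : rs N o ⟨b k, hbN k⟩ = s k := by rw [hs, hpb]
      exact h1.trans h2.symm
  have h1 : ∀ s : N → Bool, (cube (Bt R)).real (rs N ⁻¹' {s}) = 1 / 2 ^ N.card := by
    intro s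
    have := Pool.Agent.HypEnt.real_inter_rs N s (E := Set.univ) MeasurableSet.univ (by simp)
    simpa using this
  rw [hset]
  have h2 : (⋃ s : Fin R → Bool, rs N ⁻¹' {pat s}) =
      ⋃ s ∈ (Finset.univ : Finset (Fin R → Bool)), rs N ⁻¹' {pat s} := by simp
  rw [h2, measureReal_biUnion_finset]
  · simp only [h1, hN]
    rw [Finset.sum_const, Finset.card_univ, Fintype.card_pi]
    simp only [Fintype.card_bool, Finset.prod_const, Finset.card_univ, Fintype.card_fin,
      nsmul_eq_mul]
    push_cast
    rw [pow_mul, one_div_pow]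
    have h3 : (2 : ℝ) ^ R ≠ 0 := by positivity
    have h4 : ((2 : ℝ) ^ 2) ^ R = 2 ^ R * 2 ^ R := by
      rw [← pow_mul, mul_comm 2 R, pow_mul, sq]
    rw [h4]
    field_simp
  · intro s _ s' _ hss
    refine Disjoint.preimage _ ?_
    simp only [Set.disjoint_singleton, ne_eq]
    exact fun h => hss (hpinj h)
  · intro s _
    exact fm_rs N (pat s)

end HypF
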