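import Mathlib

/-!
# H2 / HypF: union bound over the values of the near bits
-/

namespace HypF

open MeasureTheory
open scoped ENNReal

/-- union bound: if for every fixed value `s` the functions `F s` and `G s` differ with measure at most `ε`
then `F (r ω) ω` and `G (r ω) ω` differ with measure at most `card S * ε` -/
theorem measure_near_le {Ω S V : Type*} [MeasurableSpace Ω] [Fintype S] (μ : Measure Ω)
    (r : Ω → S) (F G : S → Ω → V) (ε : ℝ≥0∞) (h : ∀ s, μ {ω | F s ω ≠ G s ω} ≤ ε) :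
    μ {ω | F (r ω) ω ≠ G (r ω) ω} ≤ Fintype.card S * ε := by
  have hsub : {ω | F (r ω) ω ≠ G (r ω) ω} ⊆ ⋃ s, {ω | F s ω ≠ G s ω} := fun ω hω =>
    Set.mem_iUnion.2 ⟨r ω, hω⟩
  refine (measure_mono hsub).trans ((measure_iUnion_fintype_le μ _).trans ?_)
  refine (Finset.sum_le_sum fun s _ => h s).trans ?_
  rw [Finset.sum_const, Finset.card_univ, nsmul_eq_mul]

/-- real valued version -/
theorem measureReal_near_le {Ω S V : Type*} [MeasurableSpace Ω] [Fintype S] (μ : Measure Ω)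
    [IsProbabilityMeasure μ] (r : Ω → S) (F G : S → Ω → V) (ε : ℝ)
    (h : ∀ s, μ.real {ω | F s ω ≠ G s ω} ≤ ε) :
    μ.real {ω | F (r ω) ω ≠ G (r ω) ω} ≤ Fintype.card S * ε := by
  have hsub : {ω | F (r ω) ω ≠ G (r ω) ω} ⊆ ⋃ s, {ω | F s ω ≠ G s ω} := fun ω hω =>
    Set.mem_iUnion.2 ⟨r ω, hω⟩
  refine (measureReal_mono hsub).trans ((measureReal_iUnion_fintype_le _).trans ?_)
  refine (Finset.sum_le_sum fun s _ => h s).trans ?_
  rw [Finset.sum_const, Finset.card_univ, nsmul_eq_mul]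

/-- two events -/
theorem measureReal_pair_le {Ω V : Type*} [MeasurableSpace Ω] (μ : Measure Ω)
    [IsProbabilityMeasure μ] {σ : Ω → Ω} (hσ : MeasurePreserving σ μ μ) (F G : Ω → V) (E : Set Ω)
    (hFG : NullMeasurableSet {ω | F ω ≠ G ω} μ) (adj : V → V → Prop)
    (h : ∀ ω, ω ∉ E → adj (F ω) (F (σ ω))) (ε δ : ℝ) (h1 : μ.real {ω | F ω ≠ G ω} ≤ ε)
    (h2 : μ.real E ≤ δ) : μ.real {ω | ¬ adj (G ω) (G (σ ω))} ≤ 2 * ε + δ := by
  have hsub : {ω | ¬ adj (G ω) (G (σ ω))} ⊆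
      ({ω | F ω ≠ G ω} ∪ σ ⁻¹' {ω | F ω ≠ G ω}) ∪ E := by
    intro ω hω
    by_contra hcon
    simp only [Set.mem_union, Set.mem_preimage, Set.mem_ofPred_eq, not_or, not_not] at hcon
    obtain ⟨⟨e1, e2⟩, e3⟩ := hcon
    apply hω
    rw [← e1, ← e2]
    exact h ω e3
  refine (measureReal_mono hsub).trans ((measureReal_union_le _ _).trans ?_)
  refine add_le_add ((measureReal_union_le _ _).trans ?_) h2
  rw [hσ.measureReal_preimage hFG]
  linarith

end HypF
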