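import Mathlib

/-!
# H2 / HypF: Shapley values of set functions

`shv v W x` = Shapley value of the player `x` in the game `v` restricted to the finite set `W`
(average over the orders of `W` of the marginal contribution of `x`), defined by the recursion on the last
player of the order.
-/

namespace HypF

variable {P : Type*} [DecidableEq P]

/-- Shapley value of the player `x` in the game `v` restricted to `W` (0 if `x ∉ W`) -/
noncomputable def shv (v : Finset P → ℝ) (W : Finset P) (x : P) : ℝ :=
  if x ∈ W then
    ((W.card : ℝ))⁻¹ * (v W - v (W.erase x) + ∑ z ∈ (W.erase x).attach, shv v (W.erase z.1) x)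
  else 0
termination_by W.card
decreasing_by exact Finset.card_erase_lt_of_mem (Finset.mem_of_mem_erase z.2)

theorem shv_of_notMem (v : Finset P → ℝ) {W : Finset P} {x : P} (h : x ∉ W) : shv v W x = 0 := by
  rw [shv, if_neg h]

theorem shv_of_mem (v : Finset P → ℝ) {W : Finset P} {x : P} (h : x ∈ W) :
    shv v W x = ((W.card : ℝ))⁻¹ *
      (v W - v (W.erase x) + ∑ z ∈ W.erase x, shv v (W.erase z) x) := by
  rw [shv, if_pos h, Finset.sum_attach (W.erase x) (fun z => shv v (W.erase z) x)]

theorem card_mul_shv (v : Finset P → ℝ) {W : Finset P} {x : P} (h : x ∈ W) :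
    (W.card : ℝ) * shv v W x = v W - v (W.erase x) + ∑ z ∈ W.erase x, shv v (W.erase z) x := by
  have h0 : (W.card : ℝ) ≠ 0 := by
    have := Finset.card_pos.2 ⟨x, h⟩
    positivity
  rw [shv_of_mem v h, mul_inv_cancel_left₀ h0]

/-- (S1) the values add up to `v W - v ∅` -/
theorem sum_shv (v : Finset P → ℝ) (W : Finset P) : ∑ x ∈ W, shv v W x = v W - v ∅ := by
  induction hn : W.card generalizing W with
  | zero =>
    rw [Finset.card_eq_zero] at hn
    subst hn
    simp
  | succ n ih =>
    have h0 : (W.card : ℝ) ≠ 0 := by rw [hn]; positivity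
    have key : (W.card : ℝ) * ∑ x ∈ W, shv v W x = (W.card : ℝ) * (v W - v ∅) := by
      rw [Finset.mul_sum]
      have h1 : ∑ x ∈ W, (W.card : ℝ) * shv v W x
          = ∑ x ∈ W, (v W - v (W.erase x)) + ∑ x ∈ W, ∑ z ∈ W.erase x, shv v (W.erase z) x := by
        rw [← Finset.sum_add_distrib]
        exact Finset.sum_congr rfl fun x hx => card_mul_shv v hx
      have h2 : ∑ x ∈ W, ∑ z ∈ W.erase x, shv v (W.erase z) x
          = ∑ z ∈ W, ∑ x ∈ W.erase z, shv v (W.erase z) x := by
        refine Finset.sum_comm' fun x z => ?_
        simp only [Finset.mem_erase]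
        tauto
      have h3 : ∀ z ∈ W, ∑ x ∈ W.erase z, shv v (W.erase z) x = v (W.erase z) - v ∅ := fun z hz =>
        ih (W.erase z) (by rw [Finset.card_erase_of_mem hz, hn]; rfl)
      rw [h1, h2, Finset.sum_congr rfl h3, Finset.sum_sub_distrib, Finset.sum_sub_distrib]
      simp only [Finset.sum_const, nsmul_eq_mul]
      ring
    exact mul_left_cancel₀ h0 key

/-- only the values of `v` on subsets of `W` matter -/
theorem shv_congr {v v' : Finset P → ℝ} {W : Finset P} (h : ∀ R ⊆ W, v R = v' R) (x : P) :
    shv v W x = shv v' W x := by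
  induction hn : W.card generalizing W with
  | zero =>
    rw [Finset.card_eq_zero] at hn
    subst hn
    rw [shv_of_notMem v (by simp), shv_of_notMem v' (by simp)]
  | succ n ih =>
    by_cases hx : x ∈ W
    · rw [shv_of_mem v hx, shv_of_mem v' hx, h W (Finset.Subset.refl _),
        h (W.erase x) (Finset.erase_subset _ _)]
      congr 2
      refine Finset.sum_congr rfl fun z hz => ?_
      have hzW := Finset.mem_of_mem_erase hz
      exact ih (fun R hR => h R (hR.trans (Finset.erase_subset _ _)))
        (by rw [Finset.card_erase_of_mem hzW, hn]; rfl)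
    · rw [shv_of_notMem v hx, shv_of_notMem v' hx]

/-- (S2) additivity -/
theorem shv_add (v v' : Finset P → ℝ) (W : Finset P) (x : P) :
    shv (fun R => v R + v' R) W x = shv v W x + shv v' W x := by
  induction hn : W.card generalizing W with
  | zero =>
    rw [Finset.card_eq_zero] at hn
    subst hn
    simp [shv_of_notMem]
  | succ n ih =>
    by_cases hx : x ∈ W
    · rw [shv_of_mem _ hx, shv_of_mem v hx, shv_of_mem v' hx]
      have : ∑ z ∈ W.erase x, shv (fun R => v R + v' R) (W.erase z) x
          = ∑ z ∈ W.erase x, shv v (W.erase z) x + ∑ z ∈ W.erase x, shv v' (W.erase z) x := by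
        rw [← Finset.sum_add_distrib]
        refine Finset.sum_congr rfl fun z hz => ?_
        exact ih (W.erase z)
          (by rw [Finset.card_erase_of_mem (Finset.mem_of_mem_erase hz), hn]; rfl)
      rw [this]
      ring
    · simp [shv_of_notMem, hx]

/-- (S2) homogeneity -/
theorem shv_smul (c : ℝ) (v : Finset P → ℝ) (W : Finset P) (x : P) :
    shv (fun R => c * v R) W x = c * shv v W x := by
  induction hn : W.card generalizing W with
  | zero =>
    rw [Finset.card_eq_zero] at hn
    subst hn
    simp [shv_of_notMem]
  | succ n ih =>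
    by_cases hx : x ∈ W
    · rw [shv_of_mem _ hx, shv_of_mem v hx]
      have : ∑ z ∈ W.erase x, shv (fun R => c * v R) (W.erase z) x
          = c * ∑ z ∈ W.erase x, shv v (W.erase z) x := by
        rw [Finset.mul_sum]
        refine Finset.sum_congr rfl fun z hz => ?_
        exact ih (W.erase z)
          (by rw [Finset.card_erase_of_mem (Finset.mem_of_mem_erase hz), hn]; rfl)
      rw [this]
      ring
    · simp [shv_of_notMem, hx]

theorem shv_zero (W : Finset P) (x : P) : shv (fun _ => (0 : ℝ)) W x = 0 := by
  have := shv_smul (P := P) 0 (fun _ => (0 : ℝ)) W x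
  simpa using this

theorem shv_neg (v : Finset P → ℝ) (W : Finset P) (x : P) :
    shv (fun R => - v R) W x = - shv v W x := by
  have := shv_smul (-1) v W x
  simpa using this

theorem shv_sub (v v' : Finset P → ℝ) (W : Finset P) (x : P) :
    shv (fun R => v R - v' R) W x = shv v W x - shv v' W x := by
  have h := shv_add v (fun R => - v' R) W x
  simp only [← sub_eq_add_neg, shv_neg] at h
  exact h

/-- (S2) finite sums -/
theorem shv_sum {T : Type*} (s : Finset T) (v : T → Finset P → ℝ) (W : Finset P) (x : P) :
    shv (fun R => ∑ t ∈ s, v t R) W x = ∑ t ∈ s, shv (v t) W x := by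
  classical
  induction s using Finset.induction_on with
  | empty => simpa using shv_zero W x
  | insert t s ht ih =>
    simp only [Finset.sum_insert ht]
    rw [shv_add, ih]

/-- adding a constant changes nothing -/
theorem shv_add_const (v : Finset P → ℝ) (c : ℝ) (W : Finset P) (x : P) :
    shv (fun R => v R + c) W x = shv v W x := by
  induction hn : W.card generalizing W with
  | zero =>
    rw [Finset.card_eq_zero] at hn
    subst hn
    simp [shv_of_notMem]
  | succ n ih =>
    by_cases hx : x ∈ W
    · rw [shv_of_mem _ hx, shv_of_mem v hx]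
      have : ∑ z ∈ W.erase x, shv (fun R => v R + c) (W.erase z) x
          = ∑ z ∈ W.erase x, shv v (W.erase z) x :=
        Finset.sum_congr rfl fun z hz => ih (W.erase z)
          (by rw [Finset.card_erase_of_mem (Finset.mem_of_mem_erase hz), hn]; rfl)
      rw [this]
      ring
    · simp [shv_of_notMem, hx]

/-- (S3) monotonicity in the marginals of `x` -/
theorem shv_mono {v v' : Finset P → ℝ} {W : Finset P} {x : P}
    (h : ∀ R ⊆ W.erase x, v (insert x R) - v R ≤ v' (insert x R) - v' R) :
    shv v W x ≤ shv v' W x := by
  induction hn : W.card generalizing W with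
  | zero =>
    rw [Finset.card_eq_zero] at hn
    subst hn
    rw [shv_of_notMem v (by simp), shv_of_notMem v' (by simp)]
  | succ n ih =>
    by_cases hx : x ∈ W
    · rw [shv_of_mem v hx, shv_of_mem v' hx]
      have h1 := h (W.erase x) (Finset.Subset.refl _)
      rw [Finset.insert_erase hx] at h1
      have h2 : ∑ z ∈ W.erase x, shv v (W.erase z) x ≤ ∑ z ∈ W.erase x, shv v' (W.erase z) x := by
        refine Finset.sum_le_sum fun z hz => ?_
        exact ih (fun R hR => h R (hR.trans (Finset.erase_subset_erase _ (Finset.erase_subset _ _))))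
          (by rw [Finset.card_erase_of_mem (Finset.mem_of_mem_erase hz), hn]; rfl)
      exact mul_le_mul_of_nonneg_left (add_le_add h1 h2) (by positivity)
    · rw [shv_of_notMem v hx, shv_of_notMem v' hx]

/-- equal marginals, equal values -/
theorem shv_eq_of_marginals {v v' : Finset P → ℝ} {W : Finset P} {x : P}
    (h : ∀ R ⊆ W.erase x, v (insert x R) - v R = v' (insert x R) - v' R) :
    shv v W x = shv v' W x :=
  le_antisymm (shv_mono fun R hR => (h R hR).le) (shv_mono fun R hR => (h R hR).ge)

theorem shv_nonneg {v : Finset P → ℝ} {W : Finset P} {x : P}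
    (h : ∀ R ⊆ W.erase x, v R ≤ v (insert x R)) : 0 ≤ shv v W x := by
  rw [← shv_zero W x]
  exact shv_mono fun R hR => by simpa using h R hR

/-- (S4) a null player gets 0 -/
theorem shv_null {v : Finset P → ℝ} {W : Finset P} {z : P}
    (h : ∀ R ⊆ W.erase z, v (insert z R) = v R) : shv v W z = 0 := by
  rw [← shv_zero W z]
  exact shv_eq_of_marginals fun R hR => by rw [h R hR]; simp

/-- (S4) a null player can be removed -/
theorem shv_erase_null {v : Finset P → ℝ} {W : Finset P} {z x : P} (hz : z ∈ W) (hzx : x ≠ z)
    (h : ∀ R ⊆ W.erase z, v (insert z R) = v R) : shv v W x = shv v (W.erase z) x := by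
  induction hn : W.card generalizing W with
  | zero =>
    rw [Finset.card_eq_zero] at hn
    subst hn
    simp at hz
  | succ n ih =>
    by_cases hx : x ∈ W
    · have hx' : x ∈ W.erase z := Finset.mem_erase.2 ⟨hzx, hx⟩
      have hz' : z ∈ W.erase x := Finset.mem_erase.2 ⟨hzx.symm, hz⟩
      have e1 := card_mul_shv v hx
      have e2 := card_mul_shv v hx'
      have c1 : ((W.erase z).card : ℝ) = (W.card : ℝ) - 1 := by
        rw [Finset.card_erase_of_mem hz, hn]
        push_cast
        simp
      have v1 : v W = v (W.erase z) := by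
        have := h (W.erase z) (Finset.Subset.refl _)
        rwa [Finset.insert_erase hz] at this
      have v2 : v (W.erase x) = v ((W.erase z).erase x) := by
        have := h ((W.erase z).erase x) (Finset.erase_subset _ _)
        rw [Finset.erase_right_comm, Finset.insert_erase hz'] at this
        rw [this, Finset.erase_right_comm]
      have s1 : ∑ y ∈ W.erase x, shv v (W.erase y) x
          = shv v (W.erase z) x + ∑ y ∈ (W.erase z).erase x, shv v ((W.erase z).erase y) x := by
        rw [← Finset.add_sum_erase (W.erase x) (fun y => shv v (W.erase y) x) hz',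
          Finset.erase_right_comm]
        congr 1
        refine Finset.sum_congr rfl fun y hy => ?_
        rw [Finset.mem_erase, Finset.mem_erase] at hy
        obtain ⟨hyx, hyz, hyW⟩ := hy
        have hzy : z ∈ W.erase y := Finset.mem_erase.2 ⟨hyz.symm, hz⟩
        rw [ih hzy (fun R hR => h R (hR.trans
          (Finset.erase_subset_erase _ (Finset.erase_subset _ _))))
          (by rw [Finset.card_erase_of_mem hyW, hn]; rfl), Finset.erase_right_comm]
      rw [s1, v1, v2] at e1
      rw [c1] at e2
      have h0 : (W.card : ℝ) ≠ 0 := by rw [hn]; positivity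
      apply mul_left_cancel₀ h0
      linarith
    · rw [shv_of_notMem v hx, shv_of_notMem v (fun hh => hx (Finset.mem_of_mem_erase hh))]

/-- (S4) all players outside `W₀` are null: they can be removed together -/
theorem shv_of_null {v : Finset P → ℝ} {W W₀ : Finset P} (hW : W₀ ⊆ W) {x : P} (hx : x ∈ W₀)
    (h : ∀ z ∈ W, z ∉ W₀ → ∀ R ⊆ W.erase z, v (insert z R) = v R) :
    shv v W x = shv v W₀ x := by
  induction hn : (W \ W₀).card generalizing W with
  | zero =>
    rw [Finset.card_eq_zero, Finset.sdiff_eq_empty_iff_subset] at hn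
    rw [Finset.Subset.antisymm hn hW]
  | succ n ih =>
    obtain ⟨z, hz⟩ : (W \ W₀).Nonempty := by
      rw [← Finset.card_pos]; omega
    rw [Finset.mem_sdiff] at hz
    obtain ⟨hzW, hz0⟩ := hz
    have hxz : x ≠ z := fun hh => hz0 (hh ▸ hx)
    rw [shv_erase_null hzW hxz (h z hzW hz0)]
    apply ih (W := W.erase z) (Finset.subset_erase.2 ⟨hW, hz0⟩)
    · intro y hy hy0 R hR
      exact h y (Finset.mem_of_mem_erase hy) hy0 R
        (hR.trans (Finset.erase_subset_erase _ (Finset.erase_subset _ _)))
    · rw [Finset.erase_sdiff_comm, Finset.card_erase_of_mem (Finset.mem_sdiff.2 ⟨hzW, hz0⟩), hn]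
      rfl

/-- (S5) equivariance under injections -/
theorem shv_map {Q : Type*} [DecidableEq Q] (e : P ↪ Q) (v : Finset Q → ℝ) (W : Finset P) (x : P) :
    shv (fun R => v (R.map e)) W x = shv v (W.map e) (e x) := by
  induction hn : W.card generalizing W with
  | zero =>
    rw [Finset.card_eq_zero] at hn
    subst hn
    simp [shv_of_notMem]
  | succ n ih =>
    by_cases hx : x ∈ W
    · have hx' : e x ∈ W.map e := Finset.mem_map_of_mem e hx
      rw [shv_of_mem _ hx, shv_of_mem _ hx', Finset.card_map]
      simp only [← Finset.map_erase, Finset.sum_map]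
      congr 2
      exact Finset.sum_congr rfl fun z hz => ih (W.erase z)
        (by rw [Finset.card_erase_of_mem (Finset.mem_of_mem_erase hz), hn]; rfl)
    · have hx' : e x ∉ W.map e := by simpa using hx
      rw [shv_of_notMem _ hx, shv_of_notMem _ hx']

/-- (S5) equivariance under permutations, the other way round -/
theorem shv_map_equiv {Q : Type*} [DecidableEq Q] (e : P ≃ Q) (v : Finset P → ℝ) (W : Finset P)
    (x : P) : shv (fun R => v (R.map e.symm.toEmbedding)) (W.map e.toEmbedding) (e x)
      = shv v W x := by
  have h := shv_map e.symm.toEmbedding v (W.map e.toEmbedding) (e x)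
  rw [h, Finset.map_map]
  simp

end HypF
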