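import Pool.Agent.Lib.HypF.MainF
import Pool.Agent.Lib.HypVec.Union

/-!
# H2 / HypF: Theorem F for the one forest `(uSys K).gr`
-/

namespace HypF

open HypVec

/-- **Theorem F** for the union of the forests: if the entropy inequality holds for the finite
graph `adj` then `(uSys K).gr` has no Borel homomorphism to it. -/
theorem uSys_no_hom (K : Keys) {V : Type} [Fintype V] [DecidableEq V] [MeasurableSpace V]
    [MeasurableSingletonClass V] (adj : V → V → Prop) {T : Type*} [Fintype T] {C : T → Type*}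
    [∀ t, Fintype (C t)] [∀ t, DecidableEq (C t)] (φ : ∀ t, V → C t) (m : T → ℝ)
    (hm : ∀ t, 0 ≤ m t)
    (h : ∀ q ∈ SymProb V, (∀ a b, ¬ adj a b → q a b = 0) → 0 < entFun φ m q)
    (f : UX K → V) (hf : Measurable f) :
    ¬ ∀ z z', (uSys K).gr.Adj z z' → adj (f z) (f z') := by
  intro hadj
  obtain ⟨R0, hR0⟩ := no_hom K adj φ m hm h
  refine hR0 R0 le_rfl (fun z => f (emb K R0 z)) (hf.comp (measurable_emb K R0)) fun z i => ?_
  exact hadj _ _ (emb_adj K R0 ⟨i, rfl⟩)

end HypF
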